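import Pool.Agent.Lib.MP_9675a1_al.Alt.Pln
import Pool.Agent.Lib.MP_9675a1_al.Main

/-!
# Assembly for the alternating groups
-/

set_option autoImplicit false

noncomputable section

namespace Pool.Agent.Lib.MP_9675a1_al.Alt

open FreeAlgebra

/-- A group word as a positive word. -/
def ex (p : ℕ) : List (Bool × Bool) → List Bool
  | [] => []
  | x :: l => (if x.2 then [x.1] else List.replicate (p - 1) x.1) ++ ex p l

/-- A power of a positive word. -/
def rp (l : List Bool) : ℕ → List Bool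
  | 0 => []
  | k + 1 => rp l k ++ l

lemma ex_len {p : ℕ} (hp : 1 ≤ p) (l : List (Bool × Bool)) : (ex p l).length ≤ p * l.length := by
  induction l with
  | nil => simp [ex]
  | cons x l ih =>
    rw [ex, List.length_append, List.length_cons, mul_add_one]
    split_ifs <;> simp <;> omega

lemma rp_len (l : List Bool) (k : ℕ) : (rp l k).length = k * l.length := by
  induction k with
  | zero => simp [rp]
  | succ k ih => rw [rp, List.length_append, ih, add_one_mul]

lemma rp_prod {M : Type} [Monoid M] (g : Bool → M) (l : List Bool) (k : ℕ) :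
    ((rp l k).map g).prod = (l.map g).prod ^ k := by
  induction k with
  | zero => simp [rp]
  | succ k ih => rw [rp, List.map_append, List.prod_append, ih, pow_succ]

lemma gw_ex {F : Type} [Field F] (p : ℕ) (l : List (Bool × Bool)) :
    (gw (ex p l) : T F) = ev p l := by
  induction l with
  | nil => rfl
  | cons x l ih =>
    rw [ev_cons, ← ih, ex, gw, List.map_append, List.prod_append]
    split_ifs <;> simp [gw]

lemma lift_ex {M : Type} [Group M] {p : ℕ} (hp : 1 ≤ p) (A : Bool → M) (hA : ∀ s, A s ^ p = 1)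
    (l : List (Fin 2 × Bool)) : FreeGroup.lift ![A false, A true] (FreeGroup.mk l) =
      ((ex p (l.map fun x => (decide (x.1 = 1), x.2))).map A).prod := by
  have h : ∀ s, (A s)⁻¹ = A s ^ (p - 1) := fun s =>
    inv_eq_of_mul_eq_one_left (by rw [← pow_succ, Nat.sub_add_cancel hp, hA])
  rw [FreeGroup.lift_mk]
  induction l with
  | nil => simp [ex]
  | cons x l ih =>
    rw [List.map_cons, List.prod_cons, ih, List.map_cons, ex, List.map_append, List.prod_append]
    congr 1
    obtain ⟨s, t⟩ := x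
    fin_cases s <;> cases t <;> simp [h]

lemma short_words {M : Type} [Monoid M] [Finite M] (g : Bool → M) :
    ∃ R, ∀ y ∈ Submonoid.closure {g false, g true},
      ∃ l : List Bool, l.length ≤ R ∧ (l.map g).prod = y := by
  have h : ∀ y : Submonoid.closure {g false, g true}, ∃ l : List Bool, (l.map g).prod = y := by
    rintro ⟨y, hy⟩
    induction hy using Submonoid.closure_induction with
    | mem x hx =>
      rcases hx with rfl | rfl
      exacts [⟨[false], by simp⟩, ⟨[true], by simp⟩]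
    | one => exact ⟨[], rfl⟩
    | mul x y _ _ hx hy =>
      obtain ⟨l, hl⟩ := hx
      obtain ⟨l', hl'⟩ := hy
      exact ⟨l ++ l', by rw [List.map_append, List.prod_append, hl, hl']⟩
  choose l hl using h
  obtain ⟨R, hR⟩ := Finite.exists_le fun y => (l y).length
  exact ⟨R, fun y hy => ⟨l ⟨y, hy⟩, hR _, hl _⟩⟩

lemma exists_perm {V : Type} (f : V → V) {p : ℕ} (hp : 1 ≤ p) (h : ∀ z, f^[p] z = z) :
    ∃ A : Equiv.Perm V, ⇑A = f := by
  obtain ⟨k, rfl⟩ : ∃ k, p = k + 1 := ⟨p - 1, by omega⟩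
  exact ⟨⟨f, f^[k], fun z => h z, fun z => by rw [← Function.iterate_succ_apply' f]; exact h z⟩, rfl⟩

theorem main_alt : ∃ C p₀ : ℕ, 0 < C ∧ ∀ (p : ℕ) [Fact p.Prime], p₀ ≤ p → ∀ d ≤ 2 ^ (p / C),
    ∀ N : ℕ, ∃ n : ℕ, N < n ∧ ∃ a b : alternatingGroup (Fin n),
      Subgroup.closure {a, b} = ⊤ ∧ ∀ w : FreeGroup (Fin 2), (FreeGroup.toWord w).length ≤ d →
        (FreeGroup.lift ![a, b] w) ^ p = 1 := by
  classical
  obtain ⟨C, p₀, hC, hp₀, h⟩ := params
  refine ⟨2 * C, 2 * p₀, by omega, fun p _ hp d hd N => ?_⟩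
  rw [← Nat.div_div_eq_div_mul] at hd
  obtain ⟨D, hD, h1, h2⟩ := h (p / 2) (by omega) _ le_rfl
  have hd1 : 1 ≤ 2 ^ (p / 2 / C) := Nat.one_le_two_pow
  generalize 2 ^ (p / 2 / C) = d' at hd h2 hd1
  obtain ⟨α, hα⟩ : ∃ α, α = (p / 2 - 36) / 10 := ⟨_, rfl⟩
  rw [← hα] at h1
  obtain ⟨β, hβ⟩ : ∃ β, β = (p - 36) / 10 := ⟨_, rfl⟩
  obtain ⟨m, hm⟩ : ∃ m, m = β + 2 := ⟨_, rfl⟩
  obtain ⟨k, hk⟩ : ∃ k, k = β + 4 := ⟨_, rfl⟩
  obtain ⟨J, hJ⟩ : ∃ J, J = 6 * k + 5 := ⟨_, rfl⟩
  obtain ⟨g1, g2, -⟩ := lead (ZMod p) p (k := k) (by omega)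
  have hseg : ∀ L, ∃ (W : Type) (_ : AddCommGroup W) (_ : Module (ZMod p) W)
      (S : Seg (ZMod p) W L), S.ρ (ev p (c1 k) - 1) = 0 ∧ S.ρ (ev p (c2 k) - 1) = 0 ∧
        ∀ l : List (Bool × Bool), l.length ≤ d' → S.ρ ((ev p l - 1) ^ α) = 0 := fun L => by
    obtain ⟨φ, f1, f2, f3, f4, f5⟩ := exists_fun (ZMod p) p (by omega) hD h1 h2
      (Ge_anti (by omega) g1) (Ge_anti (by omega) g2) L
    obtain ⟨W, _, _, S, hS⟩ := exists_seg φ _ f1 f2
    exact ⟨W, _, _, S, hS _ f3, hS _ f4, fun l hl => hS _ (f5 l hl)⟩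
  obtain ⟨L₀, hL₀⟩ := exists_Le_list (ev p (hl k (2 * m - 1)) ::
    (List.finite_length_le (Bool × Bool) d').toFinset.toList.map
      fun l => ((ev p l : T (ZMod p)) - 1) ^ (p - 1))
  obtain ⟨M₀, hM₀⟩ : ∃ M₀, M₀ = p * (hl k (2 * m - 1)).length + p * (p * d') := ⟨_, rfl⟩
  obtain ⟨W₁, _, _, S₁, r1, r2, r3⟩ := hseg (L₀ + N + M₀)
  have := S₁.finite
  have r3' : ∀ l : List (Bool × Bool), l.length ≤ d' → S₁.ρ ((ev p l - 1) ^ β) = 0 := fun l hl => by
    rw [map_pow]
    exact pow_eq_zero_of_le (show α ≤ β by omega) (by rw [← map_pow, r3 l hl])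
  have hs : ∀ s, rV S₁ (2 * m + J + 2) (slm m J) (ι _ s) ^ (p - 1) = 0 := fun s => by
    rw [← map_pow]
    refine LinearMap.ext fun ⟨v, w⟩ => ?_
    have e : (ι (ZMod p) s : T (ZMod p)) = ev p [(s, true)] - 1 := by simp [gen]
    rw [e, ← transfer S₁ (Le_mono (by omega) (hL₀ _ (List.mem_cons_of_mem _
      (List.mem_map.mpr ⟨[(s, true)], by simpa using hd1, rfl⟩)))),
      unip S₁ (sub_one_mem (ev_mem p _)) (r3' [(s, true)] hd1) (by omega)]
    simp
  obtain ⟨κ₁, hκ₁, ht₁⟩ := tv S₁ p (α := β) (by omega) hm hk hJ (by omega)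
    (fun s => by simpa [gen] using r3' [(s, true)] hd1) r1 r2
  have hc := cyc p S₁ (by omega) hκ₁ hs (l := hl k (2 * m - 1)) fun ⟨v, w⟩ => by
    rw [← transfer S₁ (Le_mono (by omega) (hL₀ _ List.mem_cons_self)), ht₁, map_add, map_smul,
      fold_vU, fold_apply, add_zero]
  set n := 2 * m + J + 2 with hn
  have : Finite W₁ := Module.finite_of_finite (ZMod p)
  have : Finite (Module.End (ZMod p) (W₁ × (Fin n → ZMod p))) :=
    Finite.of_injective _ DFunLike.coe_injective
  let g : Bool → Module.End (ZMod p) (W₁ × (Fin n → ZMod p)) := fun s => rV S₁ n (slm m J) (gen s)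
  have hg : ∀ s, g s = 1 + rV S₁ n (slm m J) (ι _ s) := fun s => by simp [g, gen]
  obtain ⟨R, hR⟩ := short_words g
  obtain ⟨W₂, _, _, S₂, q1, q2, q3⟩ := hseg (6 * (p * R) + M₀)
  have := S₂.finite
  have : Finite W₂ := Module.finite_of_finite (ZMod p)
  have hp1 : 1 ≤ p := by omega
  have hnil := fun l hl => big_nil S₁ S₂ (ev_mem p l) (show 2 * α ≤ β by omega) (r3 l hl) (q3 l hl)
  have hu : ∀ l : List (Bool × Bool), l.length ≤ d' → ∀ z,
      act S₁ S₂ n (slm m J) (rp (ex p l) p) z = z := fun l hl z => by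
    have e1 : (rp (ex p l) p).length ≤ M₀ := by
      have := Nat.mul_le_mul_left p ((ex_len hp1 l).trans (Nat.mul_le_mul_left p hl))
      rw [rp_len]
      omega
    have : CharP (T (ZMod p)) p := charP_of_injective_algebraMap (FreeAlgebra.algebraMap_leftInverse
      (R := ZMod p) (X := Bool)).injective p
    have e2 : (ev p l : T (ZMod p)) ^ p = (ev p l - 1) ^ p + 1 := by
      rw [sub_pow_char_of_commute p (Commute.one_right _), one_pow, sub_add_cancel]
    rw [← transfer2 S₁ S₂ _ (by omega) (by omega), gw, rp_prod, ← gw, gw_ex, e2, map_add,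
      unip2 _ (sub_one_mem (ev_mem p l)) (hnil l hl) (by omega), map_one, zero_add]
    simp [fold2_apply]
  have hA : ∀ s, ∃ A : Equiv.Perm ((W₁ × (Fin n → ZMod p)) × W₂), ⇑A = lt S₁ S₂ n (slm m J) s :=
    fun s => exists_perm _ hp1 fun z => by
      have e : ∀ j z, act S₁ S₂ n (slm m J) (rp (ex p [(s, true)]) j) z =
          (lt S₁ S₂ n (slm m J) s)^[j] z := fun j => by
        induction j with
        | zero => intro z; rfl
        | succ j ih =>
          intro z
          rw [Function.iterate_succ_apply, ← ih, rp, act, List.foldr_append]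
          rfl
      rw [← e, hu [(s, true)] hd1]
  choose A hA using hA
  have hact : ∀ l : List Bool, ∀ z, (l.map A).prod z = act S₁ S₂ n (slm m J) l z := fun l z => by
    induction l with
    | nil => rfl
    | cons s l ih => rw [List.map_cons, List.prod_cons, Equiv.Perm.mul_apply, ih, hA]; rfl
  have hw : ∀ l : List (Bool × Bool), l.length ≤ d' → ((ex p l).map A).prod ^ p = 1 :=
    fun l hl => Equiv.ext fun z => by rw [← rp_prod, hact, hu l hl]; rfl
  have hAp : ∀ s, A s ^ p = 1 := fun s => by simpa [ex] using hw [(s, true)] hd1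
  have hmem : ∀ s, A s ∈ Subgroup.closure {A false, A true} := fun s =>
    Subgroup.subset_closure (by cases s <;> simp)
  obtain ⟨κ, hκ, ht⟩ := tv2 (big S₁ S₂) p (α := β) (by omega) hm hk hJ (by omega)
    (fun s => by simpa [gen] using hnil [(s, true)] hd1) (big_rel S₁ S₂ (ev_mem p _) r1 q1)
    (big_rel S₁ S₂ (ev_mem p _) r2 q2)
  let b := (Module.finBasis (ZMod p) W₁).prod (Pi.basisFun (ZMod p) (Fin n))
  have hx : ∀ j : Fin n, b (Sum.inr j) = vV S₁ n j := fun j => by simp [b, vV]
  have hφ : ∀ (j : Fin n) v, b.coord (Sum.inr j) v = v.2 j := fun j v => by simp [b]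
  have hsucc : ∀ s (j : ℕ) (hj : j + 1 < n) v, (g s v).2 ⟨j + 1, hj⟩ =
      v.2 ⟨j + 1, hj⟩ + if slm m J j = s then v.2 ⟨j, by omega⟩ else 0 := fun s j hj v => by
    rw [hg, ← rV_co_succ S₁]; rfl
  have hvv : ∀ s (j : ℕ), j < n → g s (vV S₁ n j) =
      vV S₁ n j + if slm m J j = s then vV S₁ n (j + 1) else 0 := fun s j hj => by
    rw [hg, ← rV_vV S₁ s hj]; rfl
  let Dt : Dat p (W₁ × (Fin n → ZMod p)) W₂ (6 * (p * R) + M₀)
      (Fin (Module.finrank (ZMod p) W₁) ⊕ Fin n) :=
    { S := S₂, g := g, x := b, φ := b.coord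
      i0 := Sum.inr ⟨0, by omega⟩, i1 := Sum.inr ⟨1, by omega⟩, i2 := Sum.inr ⟨2, by omega⟩
      iK := Sum.inr ⟨2 * m + J, by omega⟩, iL := Sum.inr ⟨2 * m + J + 1, by omega⟩
      A := A, G := Subgroup.closure {A false, A true}, R := R
      two := fun h => by
        have := Nat.le_of_dvd two_pos ((CharP.cast_eq_zero_iff (ZMod p) p 2).mp (by exact_mod_cast h))
        omega
      hA := fun s z => by
        rw [hA, lt, hx, hφ, co_apply (show n - 1 < n by omega)]
        rfl
      mem := hmem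
      dual := fun i j => by simp [Finsupp.single_apply, eq_comm]
      sep := fun v hv => b.ext_elem fun i => by simpa using hv i
      gp := fun s => by
        rw [← map_pow, gen_pow, map_add, map_one, map_pow, pow_eq_zero_of_le (Nat.sub_le p 1) (hs s),
          add_zero]
      Ap := hAp
      word := fun y χ hχ => hR _ (by rw [hg, hg]; exact hc y χ hχ)
      long := Nat.le_add_right _ _
      tau := by
        refine Tr.of_smul (c := κ) ⟨Sl.of_inv fun z t => ?_, ((ex p (hl k (2 * m - 1))).map A).prod,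
          list_prod_mem fun y hy => ?_, fun z => ?_⟩ hκ
        · simp only [Prod.fst_add, Prod.smul_fst, map_add, map_smul]
          rw [hx, hφ _ (vV S₁ n _), vV_co, if_neg (by simp only; omega), smul_zero, add_zero]
        · obtain ⟨s, -, rfl⟩ := List.mem_map.1 hy
          exact hmem s
        · have := ex_len hp1 (hl k (2 * m - 1))
          rw [hact, ← transfer2 S₁ S₂ _ (by omega) (by omega), gw_ex, ht, map_add, map_smul,
            fold2_vU, hx, co_apply (show 1 < n by omega)]
          simp only [hφ]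
          simp [fold2_apply]
      c1 := fun v => by rw [hφ, hφ, hsucc false 0]; simp [slm]
      c2 := fun v => by
        rw [hφ, hφ, hg, LinearMap.add_apply, Prod.snd_add, Pi.add_apply, rV_co_zero]
        simp
      c3 := fun v => by rw [hφ, hφ, hφ, hsucc true 0]; simp [slm]
      c4 := fun v => by
        have e : slm m J (2 * m + J - 1) = false := by rw [slm_false]; omega
        have := hsucc true (2 * m + J - 1) (by omega) v
        simp only [show 2 * m + J - 1 + 1 = 2 * m + J by omega, e] at this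
        rw [hφ, hφ, this]
        simp
      c5 := by rw [hx, hvv _ _ (by simp only; omega)]; simp [slm]
      c6 := by rw [hx, hx, hvv _ _ (by simp only; omega)]; simp [slm]
      c7 := by rw [hx, hvv _ _ (by simp only; omega)]; simp [slm]
      c8 := by
        have e : slm m J 2 = false := by rw [slm_false]; omega
        rw [hx, hvv _ _ (by simp only; omega)]
        simp [e]
      n01 := by simp
      n02 := by simp
      n0K := by simp only [ne_eq, Sum.inr.injEq, Fin.mk.injEq]; omega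
      n0L := by simp
      n12 := by simp
      n1K := by simp only [ne_eq, Sum.inr.injEq, Fin.mk.injEq]; omega
      n1L := by simp only [ne_eq, Sum.inr.injEq, Fin.mk.injEq]; omega
      n2K := by simp only [ne_eq, Sum.inr.injEq, Fin.mk.injEq]; omega
      n2L := by simp only [ne_eq, Sum.inr.injEq, Fin.mk.injEq]; omega
      nKL := by simp }
  have e1 : slm m J 1 = false := by rw [slm_false]; omega
  have a1 : A false (Dt.x Dt.i1, 0) = (Dt.x Dt.i1, 0) + (Dt.x Dt.i2, 0) := by
    refine (Dt.hA false _).trans ?_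
    rw [Dt.d0 Dt.n1L.symm]
    have : Dt.g false (Dt.x Dt.i1) = Dt.x Dt.i1 + Dt.x Dt.i2 := by
      change g false (b _) = b _ + b _
      rw [hx, hx, hvv _ _ (by simp only; omega)]
      simp [e1]
    simp [this]
  have a2 : A true (Dt.x Dt.i1, 0) = (Dt.x Dt.i1, 0) := by
    refine (Dt.hA true _).trans ?_
    have : Dt.g true (Dt.x Dt.i1) = Dt.x Dt.i1 := by
      change g true (b _) = b _
      rw [hx, hvv _ _ (by simp only; omega)]
      simp [e1]
    simp [this]
  have hinj : Function.Injective fun i => ((Dt.x Dt.i1, 0) + (Dt.x i, 0) :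
      (W₁ × (Fin n → ZMod p)) × W₂) := fun i j h =>
    b.injective (congrArg Prod.fst (add_left_cancel h))
  obtain ⟨n', h3, h4⟩ := alt_of_three (A := A false) (B := A true) (z := (Dt.x Dt.i1, 0))
    (u := (Dt.x Dt.i1, 0) + (Dt.x Dt.iK, 0)) (d := d)
    ((Fact.out : p.Prime).odd_of_ne_two (by omega)) (hAp _) (hAp _)
    (by rw [a1, Ne, add_eq_left]; exact Dt.x_ne _) (by rw [a1]; exact fun h => Dt.n2K (hinj h))
    (by rw [Ne, left_eq_add]; exact Dt.x_ne _) (by rw [a1]; exact Dt.three) a2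
    (fun i : Fin (Module.finrank (ZMod p) W₁) => (Dt.x Dt.i1, 0) + (Dt.x (Sum.inl i), 0))
    (fun i j h => Sum.inl_injective (hinj h))
    (fun i => by
      obtain ⟨-, y, hy, e⟩ := Dt.u1_pure (l := Sum.inl i) (by simp [Dt])
      exact ⟨y, hy, by rw [e]; simp only [Dt.d1, one_smul]⟩)
    (fun w hw' => by
      rw [← FreeGroup.mk_toWord (x := w), lift_ex hp1 A hAp]
      exact hw _ (by simpa using hw'.trans hd))
  have := S₁.rank
  exact ⟨n', by omega, h4⟩

end Pool.Agent.Lib.MP_9675a1_al.Alt
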