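import Mathlib

/-!
# From one three-cycle to an alternating group
-/

set_option autoImplicit false

namespace Pool.Agent.Lib.MP_9675a1_al.Alt

open Equiv Equiv.Perm MulAction

lemma comm_eq {V : Type} [DecidableEq V] {g h : Perm V} {z : V} (hg : g z ≠ z) (hh : h z ≠ z)
    (hs : ∀ y, y ≠ z → g y = y ∨ h y = y) :
    g z ≠ h z ∧ g * h * g⁻¹ * h⁻¹ = swap (g z) z * swap (g z) (h z) := by
  have g1 : ∀ y, g y ≠ y → g (g y) ≠ g y := fun y h1 h2 => h1 (g.injective h2)
  have h1 : ∀ y, h y ≠ y → h (h y) ≠ h y := fun y h1 h2 => h1 (h.injective h2)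
  have ha : h (g z) = g z := (hs _ hg).resolve_left (g1 _ hg)
  have hc : g (h z) = h z := (hs _ hh).resolve_right (h1 _ hh)
  have hac : g z ≠ h z := fun e => g1 _ hg (by rw [e, hc])
  refine ⟨hac, ?_⟩
  have key : g * h * g⁻¹ = swap (g z) z * h * swap (g z) z := by
    rw [mul_inv_eq_iff_eq_mul]
    ext y
    simp only [Perm.mul_apply]
    by_cases e : y = z
    · rw [e, hc, swap_apply_left, swap_apply_of_ne_of_ne hac.symm hh]
    have e1 : g y ≠ g z := fun h2 => e (g.injective h2)
    by_cases e2 : h y = y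
    · rw [e2]
      by_cases e3 : g y = z
      · rw [e3, swap_apply_right, ha, swap_apply_left]
      have e4 : h (g y) = g y := by
        by_cases e5 : g y = y
        · rw [e5, e2]
        · exact (hs _ e3).resolve_left (g1 _ e5)
      rw [swap_apply_of_ne_of_ne e1 e3, e4, swap_apply_of_ne_of_ne e1 e3]
    · have e3 : g y = y := (hs _ e).resolve_right e2
      have e4 : y ≠ g z := fun h2 => e2 (by rw [h2, ha])
      rw [e3, swap_apply_of_ne_of_ne e4 e]
      by_cases e5 : h y = z
      · rw [e5, swap_apply_right]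
      · rw [(hs _ e5).resolve_right (h1 _ e2),
          swap_apply_of_ne_of_ne (fun h2 => e4 (h.injective (h2.trans ha.symm))) e5]
  rw [key, mul_assoc, mul_assoc, ← mul_assoc h, ← swap_apply_apply, ha]

lemma block_three {Ω : Type} [Fintype Ω] [DecidableEq Ω] {H : Subgroup (Perm Ω)} {B : Set Ω}
    (hB : IsBlock H B) (hn : ¬ B.Subsingleton) {t : Perm Ω} (ht : t.IsThreeCycle) (htH : t ∈ H)
    {x : Ω} (hx : x ∈ B) : t x ∈ B := by
  by_contra hc
  have h1 : ∀ y ∈ B, t y ∉ B := fun y hy hty => hc (by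
    have := isBlock_iff_smul_eq_of_mem.1 hB (g := ⟨t, htH⟩) hy hty
    rw [← this]
    exact ⟨x, hx, rfl⟩)
  obtain ⟨y, hy, hxy⟩ : ∃ y ∈ B, y ≠ x := by
    by_contra h
    push Not at h
    exact hn fun a ha b hb => (h a ha).trans (h b hb).symm
  have h2 : ∀ y ∈ B, y ∈ t.support := fun y hy =>
    mem_support.2 fun e => h1 y hy (by rwa [e])
  have h3 : ({x, y, t x, t y} : Finset Ω) ⊆ t.support := by
    intro u hu
    simp only [Finset.mem_insert, Finset.mem_singleton] at hu
    rcases hu with rfl | rfl | rfl | rfl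
    exacts [h2 _ hx, h2 _ hy, apply_mem_support.2 (h2 _ hx), apply_mem_support.2 (h2 _ hy)]
  have h4 := Finset.card_le_card h3
  have n1 : x ≠ t x := fun e => hc (e ▸ hx)
  have n2 : x ≠ t y := fun e => h1 y hy (e ▸ hx)
  have n3 : y ≠ t x := fun e => hc (e ▸ hy)
  have n4 : y ≠ t y := fun e => h1 y hy (e ▸ hy)
  have n5 : t x ≠ t y := fun e => hxy (t.injective e).symm
  rw [ht.card_support, Finset.card_insert_of_notMem (by simp [hxy.symm, n1, n2]),
    Finset.card_insert_of_notMem (by simp [n3, n4]), Finset.card_pair n5] at h4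
  omega

lemma alt_le {Ω : Type} [Fintype Ω] [DecidableEq Ω] {A B t : Perm Ω} {z : Ω}
    (htr : ∀ y, ∃ g ∈ Subgroup.closure ({A, B} : Set (Perm Ω)), g z = y) (ht : t.IsThreeCycle)
    (htH : t ∈ Subgroup.closure ({A, B} : Set (Perm Ω))) (hA : A z = t z) (hB : B z = z) :
    alternatingGroup Ω ≤ Subgroup.closure {A, B} := by
  set H := Subgroup.closure ({A, B} : Set (Perm Ω)) with hH
  have hA' : A ∈ H := Subgroup.subset_closure (by simp)
  have hB' : B ∈ H := Subgroup.subset_closure (by simp)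
  refine alternatingGroup_le_of_isPreprimitive_of_isThreeCycle_mem ?_ ht htH
  have : IsPretransitive H Ω := ⟨fun x y => by
    obtain ⟨g, hg, rfl⟩ := htr x
    obtain ⟨g', hg', rfl⟩ := htr y
    exact ⟨⟨g' * g⁻¹, mul_mem hg' (inv_mem hg)⟩, by simp [Subgroup.smul_def]⟩⟩
  refine ⟨fun {Bl} hBl => ?_⟩
  by_cases hn : Bl.Subsingleton
  · exact Or.inl hn
  right
  have h3 : ∀ g ∈ H, ∀ s ∈ H, s.IsThreeCycle → g z ∈ Bl → g (s z) ∈ Bl := fun g hg s hs h3 hz => by
    have h4 : (g * s * g⁻¹).IsThreeCycle := by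
      rw [IsThreeCycle, cycleType_conj]; exact h3
    simpa using block_three hBl hn h4 (mul_mem (mul_mem hg hs) (inv_mem hg)) hz
  have h5 : ∀ h ∈ H, ∀ g ∈ H, g z ∈ Bl ↔ g (h z) ∈ Bl := fun h hh => by
    induction hh using Subgroup.closure_induction with
    | mem x hx =>
      intro g hg
      rcases hx with rfl | rfl
      · rw [hA]
        refine ⟨h3 g hg t htH ht, fun h => ?_⟩
        have h6 : (t * t⁻¹ * t⁻¹).IsThreeCycle := by simpa using ht.inv
        have := block_three hBl hn (t := g * t⁻¹ * g⁻¹)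
          (by rw [IsThreeCycle, cycleType_conj]; exact ht.inv)
          (mul_mem (mul_mem hg (inv_mem htH)) (inv_mem hg)) h
        simpa using this
      · rw [hB]
    | one => intro g _; rfl
    | mul x y hx _ ihx ihy =>
      intro g hg
      rw [ihx g hg]
      exact ihy (g * x) (mul_mem hg hx)
    | inv x hx ih =>
      intro g hg
      have := ih (g * x⁻¹) (mul_mem hg (inv_mem hx))
      simpa using this.symm
  obtain ⟨x, hx⟩ : Bl.Nonempty := by
    by_contra h
    rw [Set.not_nonempty_iff_eq_empty] at h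
    exact hn (h ▸ Set.subsingleton_empty)
  obtain ⟨g, hg, rfl⟩ := htr x
  refine Set.eq_univ_of_forall fun y => ?_
  obtain ⟨g', hg', rfl⟩ := htr y
  simpa using (h5 (g⁻¹ * g') (mul_mem (inv_mem hg) hg') g hg).1 hx

/-- The action on the orbit of `z` is alternating. -/
theorem alt_of_three {V : Type} [Finite V] [DecidableEq V] {A B : Perm V} {z u : V} {p d N : ℕ}
    (hp : Odd p) (hA : A ^ p = 1) (hB : B ^ p = 1) (h1 : A z ≠ z) (h2 : A z ≠ u) (h3 : z ≠ u)
    (ht : swap (A z) z * swap (A z) u ∈ Subgroup.closure ({A, B} : Set (Perm V))) (hz : B z = z)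
    (ι : Fin N → V) (hι : Function.Injective ι)
    (ho : ∀ i, ∃ g ∈ Subgroup.closure ({A, B} : Set (Perm V)), g z = ι i)
    (hw : ∀ w : FreeGroup (Fin 2), (FreeGroup.toWord w).length ≤ d →
      (FreeGroup.lift ![A, B] w) ^ p = 1) :
    ∃ n : ℕ, N ≤ n ∧ ∃ a b : alternatingGroup (Fin n), Subgroup.closure {a, b} = ⊤ ∧
      ∀ w : FreeGroup (Fin 2), (FreeGroup.toWord w).length ≤ d →
        (FreeGroup.lift ![a, b] w) ^ p = 1 := by
  classical
  set G := Subgroup.closure ({A, B} : Set (Perm V)) with hG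
  let a₀ : G := ⟨A, Subgroup.subset_closure (by simp)⟩
  let b₀ : G := ⟨B, Subgroup.subset_closure (by simp)⟩
  have hcl : Subgroup.closure ({a₀, b₀} : Set G) = ⊤ := by
    refine Subgroup.map_injective G.subtype_injective ?_
    rw [MonoidHom.map_closure, Set.image_pair, ← MonoidHom.range_eq_map, Subgroup.range_subtype]
    rfl
  let Ω := orbit G z
  have : Fintype Ω := Fintype.ofFinite _
  let e : Ω ≃ Fin (Fintype.card Ω) := Fintype.equivFin Ω
  let π : G →* Perm (Fin (Fintype.card Ω)) := e.permCongrHom.toMonoidHom.comp (toPermHom G Ω)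
  have hπ : ∀ (g : G) (y : Ω), π g (e y) = e (g • y) := fun g y => by simp [π]
  have hmem : ∀ g : G, π g ∈ Subgroup.closure {π a₀, π b₀} := fun g => by
    rw [← Set.image_pair, ← MonoidHom.map_closure, hcl]
    exact ⟨g, trivial, rfl⟩
  let z' : Ω := ⟨z, mem_orbit_self z⟩
  let t₀ : G := ⟨_, ht⟩
  have hu : (t₀ : Perm V) (A z) = u := by
    simp [t₀, swap_apply_of_ne_of_ne h2.symm h3.symm]
  let u' : Ω := ⟨u, hu ▸ mem_orbit z (t₀ * a₀)⟩
  have e1 : e (a₀ • z') ≠ e z' := fun h => h1 (congrArg Subtype.val (e.injective h))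
  have e2 : e (a₀ • z') ≠ e u' := fun h => h2 (congrArg Subtype.val (e.injective h))
  have e3 : e z' ≠ e u' := fun h => h3 (congrArg Subtype.val (e.injective h))
  have ht' : π t₀ = swap (e (a₀ • z')) (e z') * swap (e (a₀ • z')) (e u') := by
    ext1 y
    obtain ⟨y, rfl⟩ := e.surjective y
    rw [hπ, Perm.mul_apply, ← e.injective.map_swap, ← e.injective.map_swap]
    congr 1
    refine Subtype.ext ?_
    rw [Subtype.val_injective.map_swap, Subtype.val_injective.map_swap]
    rfl
  have hle := alt_le (A := π a₀) (B := π b₀) (t := π t₀) (z := e z') (fun y => by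
      obtain ⟨⟨_, g, rfl⟩, rfl⟩ := e.surjective y
      exact ⟨π g, hmem g, hπ g z'⟩)
    (ht' ▸ isThreeCycle_swap_mul_swap_same e1 e2 e3) (hmem _)
    (by rw [ht', hπ, Perm.mul_apply, swap_apply_of_ne_of_ne e1.symm e3, swap_apply_right])
    (by rw [hπ]; congr 1; exact Subtype.ext hz)
  have hev : ∀ g : G, g ^ p = 1 → π g ∈ alternatingGroup (Fin (Fintype.card Ω)) := fun g hg => by
    have h := congrArg (fun x => sign (π x)) hg
    simp only [map_pow, map_one] at h
    rw [mem_alternatingGroup]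
    rcases Int.units_eq_one_or (sign (π g)) with h' | h'
    · exact h'
    · rw [h', hp.neg_one_pow] at h
      exact absurd h (by decide)
  let a : alternatingGroup (Fin (Fintype.card Ω)) := ⟨π a₀, hev _ (Subtype.ext hA)⟩
  let b : alternatingGroup (Fin (Fintype.card Ω)) := ⟨π b₀, hev _ (Subtype.ext hB)⟩
  refine ⟨Fintype.card Ω, ?_, a, b, ?_, fun w hw' => ?_⟩
  · choose g hg hg' using ho
    simpa using Fintype.card_le_of_injective
      (fun i => (⟨ι i, hg' i ▸ mem_orbit z (⟨g i, hg i⟩ : G)⟩ : Ω))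
      fun i j h => hι (congrArg Subtype.val h)
  · refine Subgroup.map_injective (alternatingGroup _).subtype_injective ?_
    rw [MonoidHom.map_closure, Set.image_pair, ← MonoidHom.range_eq_map, Subgroup.range_subtype]
    refine le_antisymm ((Subgroup.closure_le _).2 ?_) hle
    rintro _ (rfl | rfl)
    exacts [a.2, b.2]
  · have k1 : G.subtype.comp (FreeGroup.lift ![a₀, b₀]) = FreeGroup.lift ![A, B] :=
      FreeGroup.ext_hom _ _ fun s => by fin_cases s <;> simp [a₀, b₀]
    have k2 : (alternatingGroup _).subtype.comp (FreeGroup.lift ![a, b]) =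
        π.comp (FreeGroup.lift ![a₀, b₀]) :=
      FreeGroup.ext_hom _ _ fun s => by fin_cases s <;> simp [a, b]
    have k3 : FreeGroup.lift ![a₀, b₀] w ^ p = 1 := G.subtype_injective (by
      rw [map_pow, ← MonoidHom.comp_apply, k1, hw w hw', map_one])
    refine (alternatingGroup _).subtype_injective ?_
    rw [map_pow, ← MonoidHom.comp_apply, k2, MonoidHom.comp_apply, ← map_pow, k3, map_one, map_one]

end Pool.Agent.Lib.MP_9675a1_al.Alt
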