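import Mathlib

/-!
# Permutations of the form `z ↦ z + f z • x`
-/

set_option autoImplicit false

namespace Pool.Agent.Lib.MP_9675a1_al.Alt

variable {p : ℕ} [Fact p.Prime] {V : Type} [AddCommGroup V] [Module (ZMod p) V]

/-- `f` grows with slope `c` in the direction `x`. -/
def Sl (f : V → ZMod p) (x : V) (c : ZMod p) : Prop := ∀ z (t : ZMod p), f (z + t • x) = f z + t * c

/-- The map `z ↦ z + f z • x` lies in `G`, and `f` is constant in the direction `x`. -/
def Tr (G : Subgroup (Equiv.Perm V)) (f : V → ZMod p) (x : V) : Prop :=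
  Sl f x 0 ∧ ∃ g ∈ G, ∀ z, g z = z + f z • x

variable {G : Subgroup (Equiv.Perm V)} {f f' χ : V → ZMod p} {x x' y : V} {c c' : ZMod p}

omit [AddCommGroup V] in
lemma inv_ap (g : Equiv.Perm V) (z : V) : g⁻¹ (g z) = z := g.symm_apply_apply z

omit [AddCommGroup V] in
lemma ap_inv (g : Equiv.Perm V) (z : V) : g (g⁻¹ z) = z := g.apply_symm_apply z

lemma Sl.inv (h : Sl f x 0) (z : V) (t : ZMod p) : f (z + t • x) = f z := by
  rw [h, mul_zero, add_zero]

lemma Sl.of_inv (h : ∀ z (t : ZMod p), f (z + t • x) = f z) : Sl f x 0 := fun z t => by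
  rw [h, mul_zero, add_zero]

lemma Sl.add (h : Sl f x c) (h' : Sl f' x c') : Sl (fun z => f z + f' z) x (c + c') :=
  fun z t => by simp only [h z t, h' z t]; ring

lemma Sl.mul0 (h : Sl f x 0) (h' : Sl f' x 0) : Sl (fun z => f z * f' z) x 0 :=
  Sl.of_inv fun z t => by simp only [h.inv, h'.inv]

lemma Sl.smul (h : Sl f x c) (a : ZMod p) : Sl (fun z => a * f z) x (a * c) :=
  fun z t => by simp only [h z t]; ring

lemma Tr.congr (h : Tr G f x) (e : ∀ z, f' z = f z) : Tr G f' x := by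
  rwa [show f' = f from funext e]

lemma Tr.zero (x : V) : Tr G (fun _ => (0 : ZMod p)) x :=
  ⟨Sl.of_inv fun _ _ => rfl, 1, one_mem _, fun z => by simp⟩

lemma Tr.zero' (f : V → ZMod p) : Tr G f 0 :=
  ⟨Sl.of_inv fun _ _ => by simp, 1, one_mem _, fun z => by simp⟩

lemma Tr.add (h : Tr G f x) (h' : Tr G f' x) : Tr G (fun z => f z + f' z) x := by
  obtain ⟨h1, g, hg, e⟩ := h
  obtain ⟨h2, g', hg', e'⟩ := h'
  refine ⟨by simpa using h1.add h2, g * g', mul_mem hg hg', fun z => ?_⟩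
  rw [Equiv.Perm.mul_apply, e, e', h1.inv, add_smul]
  abel

lemma Tr.smul (h : Tr G f x) (a : ZMod p) : Tr G (fun z => a * f z) x := by
  obtain ⟨k, rfl⟩ := ZMod.natCast_zmod_surjective a
  induction k with
  | zero => exact (Tr.zero x).congr fun z => by simp
  | succ k ih => exact (ih.add h).congr fun z => by push_cast; ring

lemma Tr.sub (h : Tr G f x) (h' : Tr G f' x) : Tr G (fun z => f z - f' z) x :=
  (h.add (h'.smul (-1))).congr fun z => by ring

lemma Tr.of_smul (h : Tr G (fun z => c * f z) x) (hc : c ≠ 0) : Tr G f x :=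
  (h.smul c⁻¹).congr fun z => by rw [← mul_assoc, inv_mul_cancel₀ hc, one_mul]

lemma Tr.vadd (h : Tr G f x) (h' : Tr G f y) : Tr G f (x + y) := by
  obtain ⟨h1, g, hg, e⟩ := h
  obtain ⟨h2, g', hg', e'⟩ := h'
  refine ⟨Sl.of_inv fun z t => by rw [smul_add, ← add_assoc, h2.inv, h1.inv], g * g',
    mul_mem hg hg', fun z => ?_⟩
  rw [Equiv.Perm.mul_apply, e, e', h2.inv, smul_add]
  abel

lemma Tr.vsmul (h : Tr G f x) (a : ZMod p) : Tr G f (a • x) := by
  obtain ⟨-, g, hg, e⟩ := h.smul a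
  exact ⟨Sl.of_inv fun z t => by rw [smul_smul, h.1.inv], g, hg, fun z => by
    rw [e, smul_smul, mul_comm]⟩

lemma Tr.vsub (h : Tr G f x) (h' : Tr G f y) : Tr G f (x - y) := by
  simpa [sub_eq_add_neg] using h.vadd (h'.vsmul (-1))

/-- Conjugation, read backwards. -/
lemma Tr.comp (h : Tr G f x') {g : Equiv.Perm V} (hg : g ∈ G)
    (hx : ∀ z (t : ZMod p), g (z + t • x) = g z + t • x') : Tr G (fun z => f (g z)) x := by
  obtain ⟨h1, k, hk, e⟩ := h
  refine ⟨Sl.of_inv fun z t => by simp only [hx, h1.inv], g⁻¹ * k * g,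
    mul_mem (mul_mem (inv_mem hg) hk) hg, fun z => ?_⟩
  rw [Equiv.Perm.mul_apply, Equiv.Perm.mul_apply, e, ← hx, inv_ap]

/-- Conjugation, read forwards. -/
lemma Tr.conj (h : Tr G f x) {g : Equiv.Perm V} (hg : g ∈ G)
    (hx : ∀ z (t : ZMod p), g (z + t • x) = g z + t • x') : Tr G (fun z => f (g⁻¹ z)) x' :=
  h.comp (inv_mem hg) fun z t => by
    rw [Equiv.Perm.inv_eq_iff_eq, hx, ap_inv]

/-- Substitution. -/
lemma Tr.subst (h : Tr G f x) (h' : Tr G χ y) (hs : Sl χ x 0) :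
    Tr G (fun z => f (z + χ z • y)) x := by
  obtain ⟨-, g, hg, e⟩ := h'
  refine (h.comp hg fun z t => ?_).congr fun z => by rw [e]
  rw [e, e, hs.inv]
  abel

/-- Change of direction. -/
lemma Tr.reset (h : Tr G f x) (h' : Tr G χ y) (hs : Sl χ x c) (hc : c ≠ 0) (hf : Sl f y 0) :
    Tr G f y := by
  obtain ⟨-, g, hg, e⟩ := h'
  have h1 : Tr G (fun z => f (g⁻¹ z)) (x + c • y) := h.conj hg fun z t => by
    rw [e, e, hs, add_smul, smul_add, smul_smul]
    abel
  have h2 : Tr G f (x + c • y) := h1.congr fun z => by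
    conv_lhs => rw [← ap_inv g z, e, hf.inv]
  have h3 := (h2.vsub h).vsmul c⁻¹
  rwa [add_sub_cancel_left, inv_smul_smul₀ hc] at h3

end Pool.Agent.Lib.MP_9675a1_al.Alt
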