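import Pool.Agent.Lib.MP_9675a1_al.Alt.Non
import Pool.Agent.Lib.MP_9675a1_al.Alt.Tr

/-!
# Conjugating the transvection by words that are short with respect to the second segment
-/

set_option autoImplicit false

noncomputable section

namespace Pool.Agent.Lib.MP_9675a1_al.Alt

open FreeAlgebra

lemma pairs {I : Type} {Q : ℕ → I → I → Prop} {a b c : I} (hca : c ≠ a) (hcb : c ≠ b) (hab : a ≠ b)
    (hd : ∀ t < 3, ∀ i j l, i ≠ j → i ≠ l → Q t i j → Q (t + 1) i l)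
    (hf : ∀ t < 3, ∀ i i' j, i ≠ j → i' ≠ j → Q t i j → Q (t + 1) i' j) (h : Q 0 a b) :
    ∀ i j, i ≠ j → Q 3 i j := fun i j hij => by
  by_cases e : i = b
  · subst e
    exact hd 2 (by omega) _ _ _ hcb.symm hij (hf 1 (by omega) _ _ _ hca.symm hcb.symm
      (hd 0 (by omega) _ _ _ hab hca.symm h))
  · exact hd 2 (by omega) _ _ _ hij hij (hd 1 (by omega) _ _ _ e hij
      (hf 0 (by omega) _ _ _ hab e h))

variable {p : ℕ} [Fact p.Prime] {U W : Type} [AddCommGroup U] [Module (ZMod p) U]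
  [AddCommGroup W] [Module (ZMod p) W] {L : ℕ} {I : Type} [DecidableEq I]

/-- The data of the seam and what is used about it. -/
structure Dat (p : ℕ) [Fact p.Prime] (U W : Type) [AddCommGroup U] [Module (ZMod p) U]
    [AddCommGroup W] [Module (ZMod p) W] (L : ℕ) (I : Type) [DecidableEq I] where
  S : Seg (ZMod p) W L
  g : Bool → Module.End (ZMod p) U
  x : I → U
  φ : I → U →ₗ[ZMod p] ZMod p
  i0 : I
  i1 : I
  i2 : I
  iK : I
  iL : I
  A : Bool → Equiv.Perm (U × W)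
  G : Subgroup (Equiv.Perm (U × W))
  R : ℕ
  two : (2 : ZMod p) ≠ 0
  hA : ∀ s z, A s z = (g s z.1 + (if s then 0 else S.lam z.2 ^ 2 • x i0),
    S.ρ (gen s) z.2 + (if s then 0 else φ iL z.1 • S.e))
  mem : ∀ s, A s ∈ G
  dual : ∀ i j, φ i (x j) = if i = j then 1 else 0
  sep : ∀ v, (∀ i, φ i v = 0) → v = 0
  gp : ∀ s, g s ^ p = 1
  Ap : ∀ s, A s ^ p = 1
  word : ∀ (y : U) (χ : U →ₗ[ZMod p] ZMod p), χ y = 0 →
    ∃ l : List Bool, l.length ≤ R ∧ (l.map g).prod = 1 + χ.smulRight y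
  long : 6 * (p * R) ≤ L
  tau : Tr G (fun z => φ i1 z.1) (x iK, 0)
  c1 : ∀ v, φ i1 (g false v) = φ i1 v
  c2 : ∀ v, φ i0 (g true v) = φ i0 v
  c3 : ∀ v, φ i1 (g true v) = φ i1 v + φ i0 v
  c4 : ∀ v, φ iK (g true v) = φ iK v
  c5 : g false (x iK) = x iK
  c6 : g true (x iK) = x iK + x iL
  c7 : g false (x iL) = x iL
  c8 : g true (x i2) = x i2
  n01 : i0 ≠ i1
  n02 : i0 ≠ i2
  n0K : i0 ≠ iK
  n0L : i0 ≠ iL
  n12 : i1 ≠ i2
  n1K : i1 ≠ iK
  n1L : i1 ≠ iL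
  n2K : i2 ≠ iK
  n2L : i2 ≠ iL
  nKL : iK ≠ iL

namespace Dat

variable (D : Dat p U W L I)

lemma d1 (i : I) : D.φ i (D.x i) = 1 := by rw [D.dual, if_pos rfl]

lemma d0 {i j : I} (h : i ≠ j) : D.φ i (D.x j) = 0 := by rw [D.dual, if_neg h]

lemma lin (s : Bool) {v : U} {y : W} (hy : D.S.lam y = 0) (z : U × W) (t : ZMod p) :
    D.A s (z + t • (v, y)) = D.A s z +
      t • (D.g s v, D.S.ρ (gen s) y + if s then 0 else D.φ D.iL v • D.S.e) := by
  rw [D.hA, D.hA]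
  cases s
  · refine Prod.ext ?_ ?_
    · simp only [Prod.fst_add, Prod.snd_add, Prod.smul_fst, Prod.smul_snd, map_add, map_smul, hy,
        smul_zero, add_zero, Bool.false_eq_true, if_false]
      abel
    · simp only [Prod.fst_add, Prod.snd_add, Prod.smul_fst, Prod.smul_snd, map_add, map_smul,
        Bool.false_eq_true, if_false, add_smul, smul_add, smul_assoc]
      abel
  · refine Prod.ext ?_ ?_ <;> simp

/-- `f` is the functional `ψ` plus a function of the far end of the second segment. -/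
def Lift (j : ℕ) (ψ : U →ₗ[ZMod p] ZMod p) (f : U × W → ZMod p) : Prop :=
  ∃ q : W → ZMod p, (∀ w, ∀ y ∈ Hd D.S j, q (w + y) = q w) ∧ ∀ z, f z = ψ z.1 + q z.2

variable {D}

lemma Lift.anti {j j' : ℕ} {ψ : U →ₗ[ZMod p] ZMod p} {f : U × W → ZMod p} (h : D.Lift j ψ f)
    (hj : j' ≤ j) : D.Lift j' ψ f := by
  obtain ⟨q, h1, h2⟩ := h
  exact ⟨q, fun w y hy => h1 w y (Hd_mono _ hj hy), h2⟩

lemma Lift.sl {j : ℕ} {ψ : U →ₗ[ZMod p] ZMod p} {f : U × W → ZMod p} (h : D.Lift j ψ f) (v : U)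
    {y : W} (hy : y ∈ Hd D.S j) : Sl f (v, y) (ψ v) := fun z t => by
  obtain ⟨q, h1, h2⟩ := h
  rw [h2, h2]
  simp only [Prod.fst_add, Prod.snd_add, Prod.smul_fst, Prod.smul_snd, map_add, map_smul,
    smul_eq_mul, h1 _ _ (Submodule.smul_mem _ t hy)]
  ring

lemma Lift.step {j : ℕ} {ψ : U →ₗ[ZMod p] ZMod p} {f : U × W → ZMod p} (h : D.Lift (j + 1) ψ f)
    (hj : j ≤ L) (s : Bool) : D.Lift j (ψ ∘ₗ D.g s) fun z => f (D.A s z) := by
  obtain ⟨q, h1, h2⟩ := h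
  refine ⟨fun w => ψ (if s then 0 else D.S.lam w ^ 2 • D.x D.i0) + q (D.S.ρ (gen s) w),
    fun w y hy => ?_, fun z => ?_⟩
  · simp only [map_add, Hd_lam _ hj hy, add_zero, h1 _ _ (Hd_gen _ s hy)]
  · beta_reduce
    rw [h2, D.hA, h1, map_add, add_assoc]
    · rfl
    · split_ifs
      exacts [zero_mem _, Submodule.smul_mem _ _ (Hd_e _ j)]

lemma Lift.pow {j : ℕ} {ψ : U →ₗ[ZMod p] ZMod p} {f : U × W → ZMod p} (s : Bool) (k : ℕ)
    (h : D.Lift (j + k) ψ f) (hj : j + k ≤ L) :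
    D.Lift j (ψ ∘ₗ (D.g s ^ k)) fun z => f ((D.A s ^ k) z) := by
  induction k generalizing j with
  | zero => exact h
  | succ k ih =>
    have := (ih (j := j + 1) (by rwa [add_assoc, add_comm 1]) (by omega)).step (by omega) s
    simp only [pow_succ, Equiv.Perm.mul_apply]
    exact this

variable (D) in
/-- A map `z ↦ z + f z • (v, y)` over the pair `(ψ, v)`, reached in time `t`. -/
def P (t : ℕ) (ψ : U →ₗ[ZMod p] ZMod p) (v : U) : Prop :=
  ∃ f y, y ∈ Hd D.S t ∧ D.Lift (L - t) ψ f ∧ Tr D.G f (v, y)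

lemma P.mono {t t' : ℕ} {ψ : U →ₗ[ZMod p] ZMod p} {v : U} (h : D.P t ψ v) (ht : t ≤ t') :
    D.P t' ψ v := by
  obtain ⟨f, y, h1, h2, h3⟩ := h
  exact ⟨f, y, Hd_mono _ ht h1, h2.anti (by omega), h3⟩

lemma P.step {t : ℕ} {ψ : U →ₗ[ZMod p] ZMod p} {v : U} {s : Bool} (h : D.P t (ψ ∘ₗ D.g s) v)
    (ht : t + p ≤ L) : D.P (t + p) ψ (D.g s v) := by
  obtain ⟨f, y, h1, h2, h3⟩ := h
  have hp := (Fact.out : p.Prime).one_le
  have e1 : (D.A s)⁻¹ = D.A s ^ (p - 1) :=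
    inv_eq_of_mul_eq_one_left (by rw [← pow_succ, Nat.sub_add_cancel hp, D.Ap])
  have e2 : (ψ ∘ₗ D.g s) ∘ₗ (D.g s ^ (p - 1)) = ψ := by
    rw [LinearMap.comp_assoc, ← Module.End.mul_eq_comp, ← pow_succ', Nat.sub_add_cancel hp, D.gp]
    rfl
  refine ⟨_, _, ?_, ?_, h3.conj (D.mem s) (D.lin s (Hd_lam _ (by omega) h1))⟩
  · refine Hd_mono _ (by omega : t + 1 ≤ t + p) (add_mem (Hd_gen _ s h1) ?_)
    split_ifs
    exacts [zero_mem _, Submodule.smul_mem _ _ (Hd_e _ t)]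
  · rw [e1, ← e2]
    exact Lift.pow s _ (h2.anti (by omega)) (by omega)

lemma P.list {t : ℕ} {v : U} (l : List Bool) {ψ : U →ₗ[ZMod p] ZMod p}
    (h : D.P t (ψ ∘ₗ (l.map D.g).prod) v) (ht : t + p * l.length ≤ L) :
    D.P (t + p * l.length) ψ ((l.map D.g).prod v) := by
  induction l generalizing ψ with
  | nil => exact h
  | cons s l ih =>
    rw [List.length_cons, mul_add_one, ← add_assoc] at ht ⊢
    exact (ih (ψ := ψ ∘ₗ D.g s) h (by omega)).step ht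

lemma P.tv {t : ℕ} {v y : U} {ψ ψ' χ : U →ₗ[ZMod p] ZMod p} (hχ : χ y = 0)
    (h : D.P t ψ' v) (e : ∀ u, ψ u + χ u * ψ y = ψ' u) (ht : t + p * D.R ≤ L) :
    D.P (t + p * D.R) ψ (v + χ v • y) := by
  obtain ⟨l, h1, h2⟩ := D.word y χ hχ
  have h3 := Nat.mul_le_mul_left p h1
  have h4 := P.list (t := t) (v := v) l (ψ := ψ) (by
    rw [h2]
    convert h using 1
    ext u
    simp [e]) (by omega)
  rw [h2] at h4
  exact h4.mono (by omega)

variable (D)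

lemma all_pairs (i j : I) (hij : i ≠ j) :
    ∃ f y, y ∈ Hd D.S (3 * (p * D.R)) ∧ D.Lift (3 * (p * D.R)) (D.φ i) f ∧ Tr D.G f (D.x j, y) := by
  have hl := D.long
  obtain ⟨f, y, h1, h2, h3⟩ := pairs (Q := fun t i j => D.P (t * (p * D.R)) (D.φ i) (D.x j))
    D.n01 D.n0K D.n1K (fun t ht i j l h1 h2 h => by
      have h4 := Nat.mul_le_mul_right (p * D.R) (show t ≤ 2 by omega)
      rw [add_one_mul]
      by_cases e : j = l
      · exact e ▸ h.mono (by omega)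
      have := P.tv (ψ := D.φ i) (y := D.x l - D.x j) (χ := D.φ j + D.φ l)
        (by simp [D.d1, D.d0 e, D.d0 (Ne.symm e)]) h (by simp [D.d0 h1, D.d0 h2]) (by omega)
      simpa [D.d1, D.d0 (Ne.symm e)] using this)
    (fun t ht i i' j h1 h2 h => by
      have h4 := Nat.mul_le_mul_right (p * D.R) (show t ≤ 2 by omega)
      rw [add_one_mul]
      by_cases e : i = i'
      · exact e ▸ h.mono (by omega)
      have := P.tv (ψ := D.φ i') (y := D.x i + D.x i') (χ := D.φ i - D.φ i')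
        (by simp [D.d1, D.d0 e, D.d0 (Ne.symm e)]) h
        (by simp [D.d1, D.d0 (Ne.symm e)]) (by omega)
      simpa [D.d0 h1, D.d0 h2] using this)
    ⟨_, 0, zero_mem _, ⟨0, fun _ _ _ => rfl, fun z => by simp⟩, D.tau⟩ i j hij
  exact ⟨f, y, h1, h2.anti (by omega), h3⟩

lemma sl_u (ψ : U →ₗ[ZMod p] ZMod p) (v : U × W) : Sl (fun z : U × W => ψ z.1) v (ψ v.1) :=
  fun z t => by simp

lemma sl_u0 {ψ : U →ₗ[ZMod p] ZMod p} {v : U × W} (h : ψ v.1 = 0) :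
    Sl (fun z : U × W => ψ z.1) v 0 := h ▸ sl_u ψ v

lemma u1_dir {l : I} (h1 : D.i1 ≠ l) : ∃ y, Tr D.G (fun z => D.φ D.i1 z.1) (D.x l, y) := by
  by_cases e : D.iK = l
  · exact ⟨0, e ▸ D.tau⟩
  obtain ⟨f, y, -, h3, h4⟩ := D.all_pairs _ _ e
  exact ⟨y, D.tau.reset h4 (h3.sl _ (zero_mem _)) (by simp [D.d1]) (sl_u0 (D.d0 h1))⟩

lemma u0_dir : ∃ y, Tr D.G (fun z => D.φ D.i0 z.1) (D.x D.i1, y) := by
  have hp := (Fact.out : p.Prime).one_le
  obtain ⟨f, y, h2, h3, h4⟩ := D.all_pairs _ _ D.n2K.symm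
  obtain ⟨f', y', -, h3', h4'⟩ := D.all_pairs _ _ D.n12.symm
  have k1 := D.tau.reset h4 (h3.sl _ (zero_mem _)) (by simp [D.d1]) (sl_u0 (D.d0 D.n12))
  have e : D.g true ((D.g true ^ (p - 1)) (D.x D.iK)) = D.x D.iK := by
    rw [← Module.End.mul_apply, ← pow_succ', Nat.sub_add_cancel hp, D.gp]; rfl
  have k2 := (D.tau.comp (x := ((D.g true ^ (p - 1)) (D.x D.iK), 0)) (D.mem true) fun z t => by
    rw [D.lin true (map_zero _), e]; simp).congr
      (f' := fun z => (D.φ D.i1 + D.φ D.i0) z.1) fun z => by simp [D.hA, D.c3]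
  have k3 := k2.reset h4 (h3.sl _ (zero_mem _)) (by rw [← D.c4, e, D.d1]; exact one_ne_zero)
    (sl_u0 (by simp [D.d0 D.n12, D.d0 D.n02]))
  have k4 : Tr D.G (fun z => D.φ D.i0 z.1) (D.x D.i2, y) := (k3.sub k1).congr fun z => by simp
  exact ⟨y', k4.reset h4' (h3'.sl _ h2) (by simp [D.d1]) (sl_u0 (D.d0 D.n01))⟩

lemma to0 {v : U × W} (h : Tr D.G (fun z => D.φ D.i1 z.1) v) (h0 : D.φ D.i0 v.1 = 0) :
    Tr D.G (fun z => D.φ D.i0 z.1) v := by
  obtain ⟨y, hy⟩ := D.u0_dir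
  exact hy.reset h (sl_u _ _) (by simp [D.d1]) (sl_u0 h0)

lemma to1 {v : U × W} (h : Tr D.G (fun z => D.φ D.i0 z.1) v) (h0 : D.φ D.i1 v.1 = 0) :
    Tr D.G (fun z => D.φ D.i1 z.1) v := by
  obtain ⟨y, hy⟩ := D.u1_dir D.n01.symm
  exact hy.reset h (sl_u _ _) (by simp [D.d1]) (sl_u0 h0)

lemma u1A (z : U × W) : D.φ D.i1 (D.A false z).1 = D.φ D.i1 z.1 := by
  simp [D.hA, D.c1, D.d0 D.n01.symm]

lemma u0B (z : U × W) : D.φ D.i0 (D.A true z).1 = D.φ D.i0 z.1 := by simp [D.hA, D.c2]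

lemma stepX {v : U} {y : W} (h : Tr D.G (fun z => D.φ D.i1 z.1) (v, y)) (hy : D.S.lam y = 0) :
    Tr D.G (fun z => D.φ D.i1 z.1) (D.g false v, D.S.ρ (gen false) y + D.φ D.iL v • D.S.e) :=
  (h.conj (D.mem false) (D.lin false hy)).congr fun z => by rw [← D.u1A ((D.A false)⁻¹ z), ap_inv]

lemma stepY {v : U} {y : W} (h : Tr D.G (fun z => D.φ D.i0 z.1) (v, y)) (hy : D.S.lam y = 0) :
    Tr D.G (fun z => D.φ D.i0 z.1) (D.g true v, D.S.ρ (gen true) y) := by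
  have := (h.conj (D.mem true) (D.lin true hy)).congr (f' := fun z => D.φ D.i0 z.1) fun z => by
    rw [← D.u0B ((D.A true)⁻¹ z), ap_inv]
  simpa using this

lemma u1_W (y : W) : Tr D.G (fun z => D.φ D.i1 z.1) (0, y) := by
  have k0 := D.to0 D.tau (D.d0 D.n0K)
  have k1 := (D.stepY k0 (map_zero _)).vsub k0
  rw [D.c6, map_zero, Prod.mk_sub_mk, add_sub_cancel_left, sub_zero] at k1
  have k2 := D.to1 k1 (D.d0 D.n1L)
  have k3 := (D.stepX k2 (map_zero _)).vsub k2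
  rw [D.c7, map_zero, D.d1, Prod.mk_sub_mk, sub_self, zero_add, one_smul, sub_zero] at k3
  have h : ∀ m : List Bool, m.length ≤ L →
      Tr D.G (fun z => D.φ D.i1 z.1) (0, D.S.ρ (wd m) D.S.e) := fun m hm => by
    induction m with
    | nil => simpa using k3
    | cons s m ih =>
      rw [List.length_cons] at hm
      have h1 := ih (by omega)
      have h2 := D.S.deg m (by omega)
      cases s
      · simpa [gen, wd_cons] using (D.stepX h1 h2).vsub h1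
      · have h3 := D.to0 h1 (map_zero _)
        refine D.to1 ?_ (map_zero _)
        simpa [gen, wd_cons] using (D.stepY h3 h2).vsub h3
  have hy : y ∈ Submodule.span (ZMod p)
      {v | ∃ m : List Bool, m.length ≤ L ∧ D.S.ρ (wd m) D.S.e = v} := by
    rw [D.S.span_short]; trivial
  induction hy using Submodule.span_induction with
  | mem y hy => obtain ⟨m, hm, rfl⟩ := hy; exact h m hm
  | zero => exact Tr.zero' _
  | add a b _ _ ha hb => simpa using ha.vadd hb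
  | smul c a _ ha => simpa using ha.vsmul c

lemma u1_pure {l : I} (h1 : D.i1 ≠ l) : Tr D.G (fun z => D.φ D.i1 z.1) (D.x l, 0) := by
  obtain ⟨y, hy⟩ := D.u1_dir h1
  simpa using hy.vsub (D.u1_W y)

lemma u0_pure {l : I} (h0 : D.i0 ≠ l) : Tr D.G (fun z => D.φ D.i0 z.1) (D.x l, 0) := by
  by_cases e : D.i1 = l
  · obtain ⟨y, hy⟩ := D.u0_dir
    simpa [e] using hy.vsub (D.to0 (D.u1_W y) (map_zero _))
  · exact D.to0 (D.u1_pure e) (D.d0 h0)

/-- Twisted coordinates. -/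
lemma coords : ∃ ξ : I → U × W → ZMod p, (ξ D.i1 = fun z => D.φ D.i1 z.1) ∧
    (ξ D.i0 = fun z => D.φ D.i0 z.1) ∧ (∀ i, D.Lift 0 (D.φ i) (ξ i)) ∧
    ∀ i j, i ≠ j → Tr D.G (ξ i) (D.x j, 0) := by
  have h : ∀ i, ∃ f : U × W → ZMod p, (i = D.i1 → f = fun z => D.φ D.i1 z.1) ∧
      (i = D.i0 → f = fun z => D.φ D.i0 z.1) ∧ D.Lift 0 (D.φ i) f ∧
      ∀ j, i ≠ j → Tr D.G f (D.x j, 0) := fun i => by
    by_cases e1 : i = D.i1
    · subst e1
      exact ⟨_, fun _ => rfl, fun h => absurd h D.n01.symm, ⟨0, fun _ _ _ => rfl, fun z => by simp⟩,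
        fun j hj => D.u1_pure hj⟩
    by_cases e0 : i = D.i0
    · subst e0
      exact ⟨_, fun h => absurd h D.n01, fun _ => rfl, ⟨0, fun _ _ _ => rfl, fun z => by simp⟩,
        fun j hj => D.u0_pure hj⟩
    obtain ⟨f, y, -, h3, h4⟩ := D.all_pairs _ _ e1
    have h5 : ∀ j, i ≠ j → D.i1 ≠ j → Tr D.G f (D.x j, 0) := fun j h1 h2 =>
      h4.reset (D.u1_pure h2) (sl_u _ _) (by simp [D.d1]) (D.d0 h1 ▸ h3.sl _ (zero_mem _))
    refine ⟨f, fun h => absurd h e1, fun h => absurd h e0, h3.anti (Nat.zero_le _), fun j hj => ?_⟩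
    by_cases e : D.i1 = j
    · exact (h5 _ e0 D.n01.symm).reset (D.u0_pure (e ▸ D.n01)) (sl_u _ _) (by simp [D.d1])
        (D.d0 hj ▸ h3.sl _ (zero_mem _))
    · exact h5 j hj e
  choose ξ h1 h2 h3 h4 using h
  exact ⟨ξ, h1 _ rfl, h2 _ rfl, h3, h4⟩

end Dat

end Pool.Agent.Lib.MP_9675a1_al.Alt
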