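import Pool.Agent.Lib.MP_9675a1_al.Alt.Unr

/-!
# The quadratic seam and its linearisation
-/

set_option autoImplicit false

noncomputable section

namespace Pool.Agent.Lib.MP_9675a1_al.Alt

open FreeAlgebra TensorProduct

variable {F : Type} [Field F]

section

variable {W : Type} [AddCommGroup W] [Module F W] {L : ℕ} (S : Seg F W L)

/-- The part of a segment at distance less than `j` from its generator. -/
def Hd (j : ℕ) : Submodule F W :=
  (Sp F fun k => k < j).map (LinearMap.applyₗ S.e ∘ₗ S.ρ.toLinearMap)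

lemma Hd_e (j : ℕ) : S.e ∈ Hd S (j + 1) := ⟨1, wd_mem (m := []) (Nat.succ_pos j), by simp⟩

lemma Hd_mono {i j : ℕ} (h : i ≤ j) : Hd S i ≤ Hd S j :=
  Submodule.map_mono (Sp_mono fun _ hk => hk.trans_le h)

lemma Hd_ι {j : ℕ} (s : Bool) {z : W} (hz : z ∈ Hd S j) : S.ρ (ι F s) z ∈ Hd S (j + 1) := by
  obtain ⟨y, hy, rfl⟩ := hz
  exact ⟨ι F s * y, Sp_mul (fun _ _ h1 h2 => by omega) (ι_mem s) hy, by simp⟩

lemma Hd_gen {j : ℕ} (s : Bool) {z : W} (hz : z ∈ Hd S j) : S.ρ (gen s) z ∈ Hd S (j + 1) := by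
  rw [gen, map_add, map_one]
  exact add_mem (Hd_mono S (Nat.le_succ j) hz) (Hd_ι S s hz)

lemma Hd_lam {j : ℕ} (hj : j ≤ L) {z : W} (hz : z ∈ Hd S j) : S.lam z = 0 := by
  obtain ⟨y, hy, rfl⟩ := hz
  exact Sp_zero (S.lam ∘ₗ LinearMap.applyₗ S.e ∘ₗ S.ρ.toLinearMap)
    (fun m hm => S.deg m (by omega)) hy

end

variable {W₁ W₂ : Type} [AddCommGroup W₁] [Module F W₁] [AddCommGroup W₂] [Module F W₂]
  {L₁ L₂ : ℕ} (S₁ : Seg F W₁ L₁) (S₂ : Seg F W₂ L₂)

/-- The three blocks of the linearisation. -/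
def tri : T F →ₐ[F] Module.End F W₁ × Module.End F W₂ × Module.End F (W₂ ⊗[F] W₂) :=
  FreeAlgebra.lift F fun s => (S₁.ρ (ι F s), S₂.ρ (ι F s),
    TensorProduct.map (S₂.ρ (gen s)) (S₂.ρ (gen s)) - 1)

/-- Both segments and the tensor square of the second one. -/
def big : Pre F (W₁ × W₂ × (W₂ ⊗[F] W₂)) where
  ρ := (LinearMap.prodMapAlgHom F _ _).comp
    ((AlgHom.prodMap (AlgHom.id F _) (LinearMap.prodMapAlgHom F _ _)).comp (tri S₁ S₂))
  e := (S₁.e, 0, 0)
  e' := (0, S₂.e, 0)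
  lam := S₁.lam ∘ₗ LinearMap.fst F _ _ +
    TensorProduct.lift ((LinearMap.mul F F).compl₁₂ S₂.lam S₂.lam) ∘ₗ LinearMap.snd F _ _ ∘ₗ
      LinearMap.snd F _ _

lemma tri_eq {w : T F} (hw : w ∈ Submonoid.closure (Set.range gen)) :
    tri S₁ S₂ w = (S₁.ρ w, S₂.ρ w, TensorProduct.map (S₂.ρ w) (S₂.ρ w)) := by
  induction hw using Submonoid.closure_induction with
  | mem x hx =>
    obtain ⟨s, rfl⟩ := hx
    rw [gen, map_add, map_one, tri, FreeAlgebra.lift_ι_apply]
    simp [gen, Prod.ext_iff]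
  | one => simp [Prod.ext_iff, Module.End.one_eq_id]
  | mul x y _ _ hx hy => rw [map_mul, hx, hy, map_mul, map_mul, TensorProduct.map_mul]; rfl

lemma big_zero {x : T F} (h : tri S₁ S₂ x = 0) : (big S₁ S₂).ρ x = 0 := by
  simp only [big, AlgHom.comp_apply, h, map_zero]

lemma big_rel {w : T F} (hw : w ∈ Submonoid.closure (Set.range gen)) (h1 : S₁.ρ (w - 1) = 0)
    (h2 : S₂.ρ (w - 1) = 0) : (big S₁ S₂).ρ (w - 1) = 0 := by
  rw [map_sub, map_one, sub_eq_zero] at h1 h2
  refine big_zero S₁ S₂ ?_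
  rw [map_sub, map_one, tri_eq S₁ S₂ hw, h1, h2, TensorProduct.map_one, sub_eq_zero]
  rfl

lemma big_nil {w : T F} (hw : w ∈ Submonoid.closure (Set.range gen)) {α β : ℕ} (hβ : 2 * α ≤ β)
    (h1 : S₁.ρ ((w - 1) ^ α) = 0) (h2 : S₂.ρ ((w - 1) ^ α) = 0) :
    (big S₁ S₂).ρ ((w - 1) ^ β) = 0 := by
  rw [map_pow, map_sub, map_one] at h1 h2
  refine big_zero S₁ S₂ ?_
  rw [map_pow, map_sub, map_one, tri_eq S₁ S₂ hw]
  refine Prod.ext (pow_eq_zero_of_le (by omega) h1)
    (Prod.ext (pow_eq_zero_of_le (by omega) h2) ?_)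
  change (TensorProduct.map (S₂.ρ w) (S₂.ρ w) - 1) ^ β = 0
  generalize S₂.ρ w = g at h2
  have h3 : TensorProduct.map g g - 1 = TensorProduct.map (g - 1) g + TensorProduct.map 1 (g - 1) := by
    ext a b
    simp [sub_tmul, tmul_sub]
  rw [h3]
  refine Commute.add_pow_eq_zero_of_add_le_succ_of_pow_eq_zero (m := α) (n := α) ?_ ?_ ?_ (by omega)
  · change _ * _ = _ * _
    rw [← TensorProduct.map_mul, ← TensorProduct.map_mul, mul_one, one_mul, mul_sub, sub_mul,
      mul_one, one_mul]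
  · rw [TensorProduct.map_pow, h2, TensorProduct.map_zero_left]
  · rw [TensorProduct.map_pow, h2, TensorProduct.map_zero_right]

lemma big_gen (s : Bool) (a : W₁) (b : W₂) (c : W₂ ⊗[F] W₂) :
    (big S₁ S₂).ρ (ι F s) (a, b, c) = (S₁.ρ (ι F s) a, S₂.ρ (ι F s) b,
      TensorProduct.map (S₂.ρ (gen s)) (S₂.ρ (gen s)) c - c) := by
  simp only [big, tri, AlgHom.comp_apply, FreeAlgebra.lift_ι_apply]
  rfl

variable (n : ℕ) (sl : ℕ → Bool)

/-- The two generators, acting on the cyclic module times the second segment. -/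
def lt (s : Bool) (z : (W₁ × (Fin n → F)) × W₂) : (W₁ × (Fin n → F)) × W₂ :=
  (rV S₁ n sl (gen s) z.1 + (if s then 0 else S₂.lam z.2 ^ 2 • vV S₁ n 0),
    S₂.ρ (gen s) z.2 + (if s then 0 else co n (n - 1) z.1.2 • S₂.e))

/-- A positive word; the rightmost letter acts first. -/
def act (l : List Bool) (z : (W₁ × (Fin n → F)) × W₂) : (W₁ × (Fin n → F)) × W₂ :=
  l.foldr (lt S₁ S₂ n sl) z

/-- The same word in the free algebra. -/
def gw (l : List Bool) : T F := (l.map gen).prod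

variable (F W₁ W₂) in
/-- Folding the unrolled module. -/
def fold2 : ((W₁ × W₂ × (W₂ ⊗[F] W₂)) × (Fin n → F) × (W₁ × W₂ × (W₂ ⊗[F] W₂))) →ₗ[F]
    (W₁ × (Fin n → F)) × W₂ where
  toFun u := ((u.1.1 + u.2.2.1, u.2.1), u.1.2.1 + u.2.2.2.1)
  map_add' u v := by simp only [Prod.fst_add, Prod.snd_add, Prod.mk_add_mk]; congr 1 <;> [congr 1; skip] <;> abel
  map_smul' c u := by simp

variable {n sl}

lemma fold2_apply (u : (W₁ × W₂ × (W₂ ⊗[F] W₂)) × (Fin n → F) × (W₁ × W₂ × (W₂ ⊗[F] W₂))) :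
    fold2 F W₁ W₂ n u = ((u.1.1 + u.2.2.1, u.2.1), u.1.2.1 + u.2.2.2.1) := rfl

lemma fold2_vU (j : ℕ) : fold2 F W₁ W₂ n (vU2 (big S₁ S₂) n j) = (vV S₁ n j, 0) := by
  unfold vU2 vV
  split_ifs <;> simp [fold2_apply, big]

lemma transfer2 (l : List Bool) (h1 : l.length ≤ L₁) (h2 : l.length ≤ L₂)
    (z : (W₁ × (Fin n → F)) × W₂) :
    fold2 F W₁ W₂ n (rU2 (big S₁ S₂) n sl (gw l) ((z.1.1, z.2, z.2 ⊗ₜ z.2), z.1.2, 0)) =
      act S₁ S₂ n sl l z := by
  have hv : ∀ i j, (vU2 (big S₁ S₂) n i).2.2.1 ∈ Hd S₁ (j + 1) ∧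
      (vU2 (big S₁ S₂) n i).2.2.2.1 = 0 := fun i j => by
    unfold vU2
    split_ifs
    exacts [⟨zero_mem _, rfl⟩, ⟨Hd_e S₁ j, rfl⟩]
  have h : ∀ u, u = rU2 (big S₁ S₂) n sl (gw l) ((z.1.1, z.2, z.2 ⊗ₜ z.2), z.1.2, 0) →
      u.1.2.2 = u.1.2.1 ⊗ₜ u.1.2.1 ∧ u.2.2.1 ∈ Hd S₁ l.length ∧ u.2.2.2.1 ∈ Hd S₂ l.length ∧
      fold2 F W₁ W₂ n u = act S₁ S₂ n sl l z := by
    induction l with
    | nil => rintro _ rfl; simp [gw, act, fold2_apply]
    | cons s l ih =>
      rintro _ rfl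
      rw [List.length_cons] at h1 h2 ⊢
      obtain ⟨k1, k2, k3, k4⟩ := ih (by omega) (by omega) _ rfl
      rw [gw, List.map_cons, List.prod_cons, ← gw, map_mul, Module.End.mul_apply, act,
        List.foldr_cons, ← act, ← k4]
      generalize rU2 (big S₁ S₂) n sl (gw l) ((z.1.1, z.2, z.2 ⊗ₜ z.2), z.1.2, 0) = u at k1 k2 k3
      obtain ⟨⟨a, b, c⟩, w, a', b', c'⟩ := u
      simp only at k1 k2 k3
      subst k1
      refine ⟨?_, ?_, ?_, ?_⟩
      · rw [rU2_fst, gen, map_add, map_one, LinearMap.add_apply, big_gen]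
        simp [gen]
      · rw [gen, map_add, map_one, LinearMap.add_apply, rU2_ι, edges_apply, big_gen, big_gen]
        simp only [Prod.snd_add, Prod.fst_add, Prod.snd_sum, Prod.fst_sum, Module.End.one_apply]
        refine add_mem (Hd_mono S₁ (Nat.le_succ _) k2) (add_mem (add_mem (add_mem (Hd_ι S₁ s k2) ?_)
          (Submodule.sum_mem _ fun j _ => ?_)) ?_)
        · split_ifs
          exacts [zero_mem _, Submodule.smul_mem _ _ (hv _ _).1]
        · refine Submodule.smul_mem _ _ ?_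
          split_ifs
          exacts [(hv _ _).1, zero_mem _]
        · split_ifs
          exacts [zero_mem _, Submodule.smul_mem _ _ (zero_mem _)]
      · rw [gen, map_add, map_one, LinearMap.add_apply, rU2_ι, edges_apply, big_gen, big_gen]
        simp only [Prod.snd_add, Prod.fst_add, Prod.snd_sum, Prod.fst_sum, Module.End.one_apply]
        refine add_mem (Hd_mono S₂ (Nat.le_succ _) k3) (add_mem (add_mem (add_mem (Hd_ι S₂ s k3) ?_)
          (Submodule.sum_mem _ fun j _ => ?_)) ?_)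
        · split_ifs
          exacts [zero_mem _, Submodule.smul_mem _ _ ((hv _ 0).2 ▸ zero_mem _)]
        · refine Submodule.smul_mem _ _ ?_
          split_ifs
          exacts [(hv _ 0).2 ▸ zero_mem _, zero_mem _]
        · split_ifs
          exacts [zero_mem _, Submodule.smul_mem _ _ (Hd_e S₂ _)]
      · have e1 := Hd_lam S₁ (by omega) k2
        have e2 := Hd_lam S₂ (by omega) k3
        have e3 : (big S₁ S₂).lam (a, b, b ⊗ₜ b) = S₁.lam a + S₂.lam b ^ 2 := by
          simp [big, sq]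
        have e4 : (big S₁ S₂).e' = (0, S₂.e, 0) := rfl
        have e5 : fold2 F W₁ W₂ n (edges n sl (vU2 (big S₁ S₂) n) s w) =
            (edges n sl (vV S₁ n) s w, 0) := by
          rw [edges_apply, edges_apply, map_sum]
          refine Prod.ext ?_ ?_
          · simp only [Prod.fst_sum, map_smul, apply_ite (fold2 F W₁ W₂ n), fold2_vU, map_zero]
            refine Finset.sum_congr rfl fun j _ => ?_
            split_ifs <;> simp
          · simp only [Prod.snd_sum, map_smul, apply_ite (fold2 F W₁ W₂ n), fold2_vU, map_zero]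
            refine Finset.sum_eq_zero fun j _ => ?_
            split_ifs <;> simp
        rw [lt]
        simp only [gen, map_add, map_one, LinearMap.add_apply, Module.End.one_apply]
        rw [rU2_ι, rV_ι, big_gen, big_gen, e3, e4]
        simp only [map_add, e5]
        cases s
        · simp only [Bool.false_eq_true, if_false, map_smul, fold2_vU]
          simp only [fold2_apply, map_add, e1, e2, add_zero, add_smul]
          refine Prod.ext ?_ ?_
          · simp only [Prod.fst_add, Prod.smul_fst, smul_zero, add_zero, Prod.mk_zero_zero, zero_add,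
              Prod.fst_zero, Prod.snd_zero]
            abel
          · simp only [Prod.snd_add, Prod.smul_snd, smul_zero, add_zero, zero_add, Prod.fst_zero,
              Prod.snd_zero]
            abel
        · simp only [if_true, map_zero, add_zero]
          simp only [fold2_apply, map_add]
          refine Prod.ext ?_ ?_
          · simp only [Prod.fst_add]
          · simp only [Prod.snd_add, add_zero]
  exact (h _ rfl).2.2.2

end Pool.Agent.Lib.MP_9675a1_al.Alt
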