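import Pool.Agent.Lib.MP_9675a1_al.Alt.Med
import Pool.Agent.Lib.MP_9675a1_al.Alt.Cyc

/-!
# Products of coordinates, indicator functions of planes and a three-cycle
-/

set_option autoImplicit false

noncomputable section

namespace Pool.Agent.Lib.MP_9675a1_al.Alt

open FreeAlgebra

variable {p : ℕ} [Fact p.Prime] {U W : Type} [AddCommGroup U] [Module (ZMod p) U]
  [AddCommGroup W] [Module (ZMod p) W] {L : ℕ} {I : Type} [DecidableEq I]

namespace Dat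

variable (D : Dat p U W L I) {ξ : I → U × W → ZMod p}

include D in
lemma four : (4 : ZMod p) ≠ 0 := by
  rw [show (4 : ZMod p) = 2 * 2 by norm_num]
  exact mul_ne_zero D.two D.two

lemma lam_one : ∃ s, D.S.lam s = 1 := by
  obtain ⟨m, hm⟩ := D.S.ne
  exact ⟨(D.S.lam (D.S.ρ (wd m) D.S.e))⁻¹ • D.S.ρ (wd m) D.S.e, by
    rw [map_smul, smul_eq_mul, inv_mul_cancel₀ hm]⟩

lemma fixA (z : U × W) (t : ZMod p) :
    D.A false (z + t • (D.x D.iK, 0)) = D.A false z + t • (D.x D.iK, 0) := by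
  rw [D.lin false (map_zero _), D.c5, D.d0 D.nKL.symm]
  simp

lemma quad : Tr D.G (fun z => D.φ D.i1 z.1 * D.φ D.i1 z.1) (D.x D.iK, 0) ∧
    Tr D.G (fun z => D.φ D.i1 z.1 * D.S.lam z.2) (D.x D.iK, 0) := by
  obtain ⟨s, hs⟩ := D.lam_one
  have k0 := ((D.u0_pure D.n0K).comp (D.mem false) D.fixA).congr
    (f' := fun z => D.φ D.i0 (D.g false z.1) + D.S.lam z.2 ^ 2) fun z => by simp [D.hA, D.d1]
  have k1 := fun c : ZMod p => (k0.subst ((D.u1_W s).smul c)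
    (by simpa using (sl_u0 (W := W) (v := (D.x D.iK, 0)) (D.d0 D.n1K)).smul c)).congr
    (f' := fun z => D.φ D.i0 (D.g false z.1) + (D.S.lam z.2 + c * D.φ D.i1 z.1) ^ 2)
    fun z => by simp [hs]
  exact ⟨Tr.of_smul ((((k1 1).add (k1 (-1))).sub (k0.smul 2)).congr fun z => by ring) D.two,
    Tr.of_smul (((k1 1).sub (k1 (-1))).congr fun z => by ring) D.four⟩

section

variable (hL : ∀ i, D.Lift 0 (D.φ i) (ξ i)) (hT : ∀ i j, i ≠ j → Tr D.G (ξ i) (D.x j, 0))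
include hL hT

omit hT in
lemma s1 (i : I) : Sl (ξ i) (D.x i, 0) 1 := D.d1 i ▸ (hL i).sl _ (zero_mem _)

omit hT in
lemma s0 {i j : I} (h : i ≠ j) : Sl (ξ i) (D.x j, 0) 0 := D.d0 h ▸ (hL i).sl _ (zero_mem _)

lemma dir {f : U × W → ZMod p} {j l : I} (h : Tr D.G f (D.x j, 0)) (hf : Sl f (D.x l, 0) 0) :
    Tr D.G f (D.x l, 0) := by
  by_cases e : j = l
  · exact e ▸ h
  · exact h.reset (hT _ _ e) (D.s1 hL j) one_ne_zero hf

lemma fn {μ : W → ZMod p} {i i' j : I} (h : Tr D.G (fun z => ξ i z * μ z.2) (D.x j, 0))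
    (hi : i' ≠ j) : Tr D.G (fun z => ξ i' z * μ z.2) (D.x j, 0) := by
  by_cases e : i' = i
  · exact e ▸ h
  refine ((h.subst (hT _ _ e) (D.s0 hL hi)).sub h).congr fun z => ?_
  rw [D.s1 hL i]
  simp
  ring

lemma dirμ {μ : W → ZMod p} {i j l : I} (h : Tr D.G (fun z => ξ i z * μ z.2) (D.x j, 0))
    (hi : i ≠ l) : Tr D.G (fun z => ξ i z * μ z.2) (D.x l, 0) :=
  D.dir hL hT h ((D.s0 hL hi).mul0 (Sl.of_inv fun z t => by simp))

lemma sq_sub {i i' j : I} (h : Tr D.G (fun z => ξ i z * ξ i z) (D.x j, 0)) (e : i' ≠ i)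
    (hi : i' ≠ j) : Tr D.G (fun z => ξ i' z * ξ i' z) (D.x j, 0) ∧
      Tr D.G (fun z => ξ i z * ξ i' z) (D.x j, 0) := by
  have k1 := fun c : ZMod p => (h.subst ((hT _ _ e).smul c)
    (by simpa using (D.s0 hL hi).smul c)).congr
    (f' := fun z => (ξ i z + c * ξ i' z) ^ 2) fun z => by rw [D.s1 hL i]; ring
  exact ⟨Tr.of_smul ((((k1 1).add (k1 (-1))).sub (h.smul 2)).congr fun z => by ring) D.two,
    Tr.of_smul (((k1 1).sub (k1 (-1))).congr fun z => by ring) D.four⟩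

lemma prods (h1 : ξ D.i1 = fun z => D.φ D.i1 z.1) {i i' j : I} (hi : i ≠ j) (hi' : i' ≠ j) :
    Tr D.G (fun z => ξ i z * ξ i' z) (D.x j, 0) := by
  have h := pairs (Q := fun _ i j => Tr D.G (fun z => ξ i z * ξ i z) (D.x j, 0))
    D.n01 D.n0K D.n1K
    (fun _ _ i j l _ h2 h => D.dir hL hT h ((D.s0 hL h2).mul0 (D.s0 hL h2)))
    (fun _ _ i i' j _ h2 h => by
      by_cases e : i' = i
      · exact e ▸ h
      · exact (D.sq_sub hL hT h e h2).1)
    (by simpa only [h1] using D.quad.1) i j hi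
  by_cases e : i' = i
  · exact e ▸ h
  · exact (D.sq_sub hL hT h e hi').2

lemma lams (h1 : ξ D.i1 = fun z => D.φ D.i1 z.1) (h0 : ξ D.i0 = fun z => D.φ D.i0 z.1)
    (m : List Bool) {i j : I} (hi : i ≠ j) :
    Tr D.G (fun z => ξ i z * D.S.lam (D.S.ρ (wd m) z.2)) (D.x j, 0) := by
  have h : Tr D.G (fun z => ξ D.i1 z * D.S.lam (D.S.ρ (wd m) z.2)) (D.x D.iK, 0) := by
    induction m using List.reverseRecOn with
    | nil => simpa [h1] using D.quad.2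
    | append_singleton m s ih =>
      by_cases hm : L ≤ m.length
      · rw [D.S.high (wd_mem (by simpa using hm))]
        exact (Tr.zero _).congr fun z => by simp
      have h2 := D.S.deg m (by omega)
      cases s
      · refine ((ih.comp (D.mem false) D.fixA).sub ih).congr fun z => ?_
        simp only [h1, D.u1A]
        simp [D.hA, wd_append, gen, h2]
        ring
      · have h3 := D.dirμ hL hT (μ := fun w => D.S.lam (D.S.ρ (wd m) w))
          (D.fn hL hT (μ := fun w => D.S.lam (D.S.ρ (wd m) w)) ih D.n0K) D.n02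
        have h4 := ((h3.comp (x := (D.x D.i2, 0)) (D.mem true) fun z t => by
          rw [D.lin true (map_zero _), D.c8]; simp).sub h3).congr
          (f' := fun z => ξ D.i0 z * D.S.lam (D.S.ρ (wd (m ++ [true])) z.2)) fun z => by
            simp only [h0, D.u0B]
            simp [D.hA, wd_append, gen]
            ring
        exact D.dirμ hL hT (μ := fun w => D.S.lam (D.S.ρ (wd (m ++ [true])) w))
          (D.fn hL hT (μ := fun w => D.S.lam (D.S.ρ (wd (m ++ [true])) w)) h4 D.n12) D.n1K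
  exact pairs (Q := fun _ i j => Tr D.G (fun z => ξ i z * D.S.lam (D.S.ρ (wd m) z.2)) (D.x j, 0))
    D.n01 D.n0K D.n1K
    (fun _ _ i j l _ h2 h => D.dirμ hL hT (μ := fun w => D.S.lam (D.S.ρ (wd m) w)) h h2)
    (fun _ _ i i' j _ h2 h => D.fn hL hT (μ := fun w => D.S.lam (D.S.ρ (wd m) w)) h h2) h i j hi

end

lemma plane [Finite U] [Finite W] {j j' : I} (hj : j ≠ j') (h1j : D.i1 ≠ j) (h1j' : D.i1 ≠ j') :
    ∃ f : U × W → ZMod p, Tr D.G f (D.x j, 0) ∧ f (D.x D.i1, 0) = 1 ∧ ∀ z, f z ≠ 0 →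
      z.2 = 0 ∧ ∀ i, i ≠ j → i ≠ j' → D.φ i z.1 = D.φ i (D.x D.i1) := by
  classical
  obtain ⟨ξ, h1, h0, hL, hT⟩ := D.coords
  have hmul : ∀ f μ : U × W → ZMod p, Tr D.G f (D.x j, 0) → Sl f (D.x j', 0) 0 →
      Sl μ (D.x j', 0) 0 → Tr D.G (fun z => ξ j' z * μ z) (D.x j, 0) → ∀ z₁ z₀, μ z₁ ≠ μ z₀ →
      ∃ f' : U × W → ZMod p, Tr D.G f' (D.x j, 0) ∧ Sl f' (D.x j', 0) 0 ∧ f' z₀ = f z₀ ∧ f' z₁ = 0 ∧
        ∀ z, f z = 0 → f' z = 0 := fun f μ k1 k2 k3 k4 z₁ z₀ k5 => by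
    have k6 : Tr D.G (fun z => f z * μ z) (D.x j, 0) :=
      ((k4.subst (D.dir hL hT k1 k2) k1.1).sub k4).congr fun z => by
        rw [D.s1 hL j', k3.inv]; ring
    have k7 := sub_ne_zero.2 k5.symm
    refine ⟨fun z => (μ z₀ - μ z₁)⁻¹ * (f z * μ z - μ z₁ * f z), (k6.sub (k1.smul _)).smul _,
      Sl.of_inv fun z t => by rw [k2.inv, k3.inv], ?_, by ring, fun z hz => by simp [hz]⟩
    field_simp
  have h : ∀ s : Finset (U × W), ∃ f : U × W → ZMod p, Tr D.G f (D.x j, 0) ∧ Sl f (D.x j', 0) 0 ∧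
      f (D.x D.i1, 0) = 1 ∧ ∀ z ∈ s, f z ≠ 0 →
        z.2 = 0 ∧ ∀ i, i ≠ j → i ≠ j' → D.φ i z.1 = D.φ i (D.x D.i1) := fun s => by
    induction s using Finset.induction_on with
    | empty => exact ⟨ξ D.i1, hT _ _ h1j, D.s0 hL h1j', by rw [h1]; exact D.d1 _, by simp⟩
    | insert z₁ s _ ih =>
      obtain ⟨f, k1, k2, k3, k4⟩ := ih
      by_cases hz : z₁.2 = 0 ∧ ∀ i, i ≠ j → i ≠ j' → D.φ i z₁.1 = D.φ i (D.x D.i1)
      · refine ⟨f, k1, k2, k3, fun z hz' => ?_⟩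
        rcases Finset.mem_insert.1 hz' with rfl | hz'
        exacts [fun _ => hz, k4 z hz']
      obtain ⟨μ, m1, m2, m3⟩ : ∃ μ : U × W → ZMod p, Sl μ (D.x j', 0) 0 ∧
          Tr D.G (fun z => ξ j' z * μ z) (D.x j, 0) ∧ μ z₁ ≠ μ (D.x D.i1, 0) := by
        by_cases e : z₁.2 = 0
        · obtain ⟨i, a1, a2, a3⟩ : ∃ i, i ≠ j ∧ i ≠ j' ∧ D.φ i z₁.1 ≠ D.φ i (D.x D.i1) := by
            by_contra hc
            push Not at hc
            exact hz ⟨e, hc⟩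
          refine ⟨ξ i, D.s0 hL a2, D.prods hL hT h1 hj.symm a1, ?_⟩
          obtain ⟨q, -, hq⟩ := hL i
          rw [hq, hq, e]
          exact fun h => a3 (add_right_cancel h)
        · obtain ⟨m, hm⟩ : ∃ m, D.S.lam (D.S.ρ (wd m) z₁.2) ≠ 0 := by
            by_contra hc
            push Not at hc
            exact e (D.S.cogen _ hc)
          exact ⟨fun z => D.S.lam (D.S.ρ (wd m) z.2), Sl.of_inv fun z t => by simp,
            D.lams hL hT h1 h0 m hj.symm, by simpa using hm⟩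
      obtain ⟨f', a1, a2, a3, a4, a5⟩ := hmul f μ k1 k2 m1 m2 _ _ m3
      refine ⟨f', a1, a2, a3.trans k3, fun z hz' hf => ?_⟩
      rcases Finset.mem_insert.1 hz' with rfl | hz'
      exacts [absurd a4 hf, k4 z hz' fun h => hf (a5 z h)]
  have := Fintype.ofFinite (U × W)
  obtain ⟨f, k1, -, k3, k4⟩ := h Finset.univ
  exact ⟨f, k1, k3, fun z => k4 z (Finset.mem_univ z)⟩

lemma x_ne (i : I) : ((D.x i, 0) : U × W) ≠ 0 := fun h => by
  have := D.d1 i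
  rw [show D.x i = 0 from congrArg Prod.fst h, map_zero] at this
  exact zero_ne_one this

theorem three [Finite U] [Finite W] [DecidableEq (U × W)] :
    Equiv.swap ((D.x D.i1, 0) + (D.x D.i2, 0)) (D.x D.i1, 0) *
      Equiv.swap ((D.x D.i1, 0) + (D.x D.i2, 0)) ((D.x D.i1, 0) + (D.x D.iK, 0)) ∈ D.G := by
  obtain ⟨f, ⟨-, g, hg, e⟩, k1, k2⟩ := D.plane D.n02.symm D.n12 D.n01.symm
  obtain ⟨f', ⟨-, h, hh, e'⟩, k1', k2'⟩ := D.plane D.nKL D.n1K D.n1L
  have a1 : g (D.x D.i1, 0) = (D.x D.i1, 0) + (D.x D.i2, 0) := by rw [e, k1, one_smul]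
  have a2 : h (D.x D.i1, 0) = (D.x D.i1, 0) + (D.x D.iK, 0) := by rw [e', k1', one_smul]
  have := (comm_eq (g := g) (h := h) (z := (D.x D.i1, 0))
    (by rw [a1, Ne, add_eq_left]; exact D.x_ne _) (by rw [a2, Ne, add_eq_left]; exact D.x_ne _)
    fun y hy => ?_).2
  · rw [← a1, ← a2, ← this]
    exact mul_mem (mul_mem (mul_mem hg hh) (inv_mem hg)) (inv_mem hh)
  by_cases b1 : f y = 0
  · exact Or.inl (by rw [e, b1, zero_smul, add_zero])
  by_cases b2 : f' y = 0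
  · exact Or.inr (by rw [e', b2, zero_smul, add_zero])
  refine absurd (Prod.ext (sub_eq_zero.1 (D.sep _ fun i => ?_)) (k2 y b1).1) hy
  rw [map_sub, sub_eq_zero]
  by_cases c1 : i = D.i2
  · exact (k2' y b2).2 i (c1 ▸ D.n2K) (c1 ▸ D.n2L)
  by_cases c2 : i = D.i0
  · exact (k2' y b2).2 i (c2 ▸ D.n0K) (c2 ▸ D.n0L)
  · exact (k2 y b1).2 i c1 c2

end Dat

end Pool.Agent.Lib.MP_9675a1_al.Alt
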