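import Pool.Agent.Lib.MP_9675a1_al.Tv

/-!
# The unrolled module with one more exit from the last vertex of the path
-/

set_option autoImplicit false

noncomputable section

namespace Pool.Agent.Lib.MP_9675a1_al.Alt

open FreeAlgebra

/-- A module with two entry vectors and an exit functional. -/
structure Pre (F : Type) [Field F] (W : Type) [AddCommGroup W] [Module F W] where
  ρ : T F →ₐ[F] Module.End F W
  e : W
  e' : W
  lam : W →ₗ[F] F

variable {F : Type} [Field F] {W : Type} [AddCommGroup W] [Module F W]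
  (S : Pre F W) (n : ℕ) (sl : ℕ → Bool)

/-- The vertices of the path. -/
def vU2 (j : ℕ) : W × (Fin n → F) × W :=
  if h : j < n then (0, Pi.single ⟨j, h⟩ 1, 0) else (0, 0, S.e)

/-- The unrolled module. -/
def rU2 : T F →ₐ[F] Module.End F (W × (Fin n → F) × W) :=
  FreeAlgebra.lift F fun s => LinearMap.coprod
    (LinearMap.inl F _ _ ∘ₗ S.ρ (ι F s) + if s then 0 else S.lam.smulRight (vU2 S n 0))
    (LinearMap.coprod (edges n sl (vU2 S n) s +
        if s then 0 else (co n (n - 1)).smulRight (0, 0, S.e'))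
      (LinearMap.inr F _ _ ∘ₗ LinearMap.inr F _ _ ∘ₗ S.ρ (ι F s)))

variable {n sl}

lemma rU2_ι (s : Bool) (u : W × (Fin n → F) × W) : rU2 S n sl (ι F s) u =
    (S.ρ (ι F s) u.1, 0, S.ρ (ι F s) u.2.2) + (if s then 0 else S.lam u.1 • vU2 S n 0) +
      edges n sl (vU2 S n) s u.2.1 + (if s then 0 else co n (n - 1) u.2.1 • (0, 0, S.e')) := by
  cases s <;> ext <;> simp [rU2, add_comm, add_assoc, add_left_comm]

lemma rU2_vU (s : Bool) {j : ℕ} (hj : j + 1 < n) :
    rU2 S n sl (ι F s) (vU2 S n j) = if sl j = s then vU2 S n (j + 1) else 0 := by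
  have h : co n (n - 1) (Pi.single (⟨j, by omega⟩ : Fin n) (1 : F)) = 0 := by
    rw [co_apply (by omega), Pi.single_eq_of_ne]
    intro h
    have := congrArg Fin.val h
    simp only at this
    omega
  rw [rU2_ι, vU2, dif_pos (by omega : j < n)]
  simp [edges_single, h]

lemma rU2_last (hn : sl (n - 1) = true) (hn0 : 0 < n) :
    rU2 S n sl (ι F false) (vU2 S n (n - 1)) = (0, 0, S.e') := by
  rw [rU2_ι, vU2, dif_pos (by omega : n - 1 < n)]
  simp [edges_single, hn, co_apply (show n - 1 < n by omega)]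

lemma vU2_fst (j : ℕ) : (vU2 S n j).1 = 0 := by unfold vU2; split_ifs <;> rfl

lemma vU2_co (j : ℕ) (i : Fin n) : (vU2 S n j).2.1 i = if (i : ℕ) = j then 1 else 0 := by
  unfold vU2
  split_ifs with h1 h2 h2
  · subst h2; simp
  · exact Pi.single_eq_of_ne (fun h => h2 (congrArg Fin.val h)) _
  · exact absurd (h2 ▸ i.2) h1
  · rfl

lemma dec_U2 (u : W × (Fin n → F) × W) :
    u = (u.1, 0, 0) + ∑ j : Fin n, u.2.1 j • vU2 S n j + (0, 0, u.2.2) := by
  have h : ∑ j : Fin n, u.2.1 j • vU2 S n j = (0, u.2.1, 0) := by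
    simp only [vU2, Fin.is_lt, dif_pos, Prod.smul_mk, smul_zero, ← prod_mk_sum,
      Finset.sum_const_zero, Fin.eta]
    rw [← pi_eq_sum_univ']
  rw [h]
  simp

lemma vU2_mem (j : ℕ) : vU2 S n j ∈ Fl W n j :=
  ⟨vU2_fst S j, fun i hi => by rw [vU2_co, if_neg hi.ne]⟩

lemma fl_step2 (s : Bool) {q : ℕ} {u : W × (Fin n → F) × W} (hu : u ∈ Fl W n q) :
    rU2 S n sl (ι F s) u ∈ Fl W n (q + 1) := by
  rw [rU2_ι, hu.1, map_zero, map_zero, zero_smul, ite_self, add_zero, edges_apply]
  refine add_mem (add_mem ⟨rfl, fun _ _ => rfl⟩ (Submodule.sum_mem _ fun j _ => ?_)) ?_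
  · rcases lt_or_ge (j : ℕ) q with h | h
    · rw [hu.2 j h, zero_smul]; exact zero_mem _
    · refine Submodule.smul_mem _ _ ?_
      split_ifs
      exacts [Fl_anti (by omega) (vU2_mem S _), zero_mem _]
  · split_ifs
    exacts [zero_mem _, Submodule.smul_mem _ _ ⟨rfl, fun _ _ => rfl⟩]

lemma fl_Ge2 {i q : ℕ} {x : T F} (hx : x ∈ Ge F i) {u : W × (Fin n → F) × W}
    (hu : u ∈ Fl W n q) : rU2 S n sl x u ∈ Fl W n (q + i) := by
  have h : ∀ m : List Bool, rU2 S n sl (wd m) u ∈ Fl W n (q + m.length) := fun m => by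
    induction m with
    | nil => simpa using hu
    | cons s m ih => rw [wd_cons, map_mul]; exact fl_step2 S s ih
  exact Sp_map (LinearMap.applyₗ u ∘ₗ (rU2 S n sl).toLinearMap)
    (fun m hm => Fl_anti (by omega) (h m)) hx

lemma rU2_fst (x : T F) (u : W × (Fin n → F) × W) : (rU2 S n sl x u).1 = S.ρ x u.1 := by
  induction x using FreeAlgebra.induction generalizing u with
  | grade0 r => simp [Algebra.algebraMap_eq_smul_one]
  | grade1 s =>
    rw [rU2_ι, edges_apply]
    cases s <;> simp [vU2_fst, Prod.fst_sum, apply_ite Prod.fst]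
  | mul x y hx hy => simp [hx, hy]
  | add x y hx hy => simp [hx, hy]

lemma rU2_top (x : T F) (v : W) : rU2 S n sl x (0, 0, v) = (0, 0, S.ρ x v) := by
  induction x using FreeAlgebra.induction generalizing v with
  | grade0 r => simp [Algebra.algebraMap_eq_smul_one]
  | grade1 s => rw [rU2_ι]; simp
  | mul x y hx hy => simp [hx, hy]
  | add x y hx hy => simp [hx, hy]

lemma rel_mem2 {x : T F} (hx : S.ρ x = 0) (u : W × (Fin n → F) × W) :
    rU2 S n sl x u ∈ Fl W n 0 :=
  ⟨by rw [rU2_fst, hx]; rfl, fun _ h => absurd h (Nat.not_lt_zero _)⟩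

lemma rel_zero2 {x : T F} (hx : S.ρ x = 0) {q : ℕ} (hq : n ≤ q) {u : W × (Fin n → F) × W}
    (hu : u ∈ Fl W n q) : rU2 S n sl x u = 0 := by
  rw [eq_of_mem_Fl hq hu, rU2_top, hx]; rfl

lemma unip2 {x : T F} (hx : x ∈ Ge F 1) {α : ℕ} (hα : S.ρ (x ^ α) = 0) {N : ℕ}
    (hN : 2 * α + n ≤ N) : rU2 S n sl (x ^ N) = 0 := by
  obtain ⟨k, rfl⟩ := Nat.exists_eq_add_of_le hN
  refine LinearMap.ext fun u => ?_
  rw [show 2 * α + n + k = α + ((n + k) + α) by ring, pow_add, pow_add, map_mul, map_mul]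
  exact rel_zero2 S hα (by omega) (fl_Ge2 S (Ge_pow hx (n + k)) (rel_mem2 S hα u))

lemma pow_vU2 (hn : sl (n - 2) = true) {i : ℕ} (hi : i + 1 < n) (j : ℕ) :
    (rU2 S n sl (ι F false) ^ j) (vU2 S n i) =
      if ∀ t < j, sl (i + t) = false then vU2 S n (i + j) else 0 := by
  induction j with
  | zero => simp
  | succ j ih =>
    rw [pow_succ', Module.End.mul_apply, ih]
    by_cases h : ∀ t < j, sl (i + t) = false
    · have h1 : i + j + 1 < n := by
        by_contra h1
        have := h (n - 2 - i) (by omega)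
        rw [show i + (n - 2 - i) = n - 2 by omega, hn] at this
        exact absurd this (by simp)
      rw [if_pos h, rU2_vU S _ h1]
      refine if_congr ⟨fun h2 t ht => ?_, fun h2 => h2 j (by omega)⟩ rfl rfl
      rcases Nat.lt_succ_iff_lt_or_eq.mp ht with ht | rfl
      exacts [h t ht, h2]
    · rw [if_neg h, if_neg fun h2 => h fun t ht => h2 t (by omega), map_zero]

lemma pow_apply2 (hn : sl (n - 1) = true) (hn' : sl (n - 2) = true) (hn0 : 1 < n)
    (h0 : sl 0 = true) {α j : ℕ}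
    (hα : S.ρ (ι F false ^ α) = 0) (hj : α + 1 ≤ j) (u : W × (Fin n → F) × W) :
    (rU2 S n sl (ι F false) ^ j) u = ∑ i : Fin n, u.2.1 i •
      if ∀ t < j, sl (i + t) = false then vU2 S n (i + j) else 0 := by
  have h1 : ∀ (i : ℕ) (v : W), (rU2 S n sl (ι F false) ^ (i + 1)) (v, 0, 0) =
      (S.ρ (ι F false ^ (i + 1)) v, 0, 0) + S.lam (S.ρ (ι F false ^ i) v) • vU2 S n 0 := by
    intro i v
    induction i with
    | zero => simp [rU2_ι]
    | succ i ih =>
      rw [pow_succ', Module.End.mul_apply, ih, map_add, map_smul, rU2_vU S _ (by omega), h0, rU2_ι,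
        pow_succ' _ (i + 1), map_mul]
      simp
  have h2 : ∀ i, α ≤ i → S.ρ (ι F false ^ i) = 0 := fun i hi => by
    obtain ⟨k, rfl⟩ := Nat.exists_eq_add_of_le hi
    rw [pow_add, map_mul, hα, zero_mul]
  obtain ⟨i, rfl⟩ : ∃ i, j = i + 1 := ⟨j - 1, by omega⟩
  have h3 : ∀ k : Fin n, (rU2 S n sl (ι F false) ^ (i + 1)) (vU2 S n k) =
      if ∀ t < i + 1, sl (k + t) = false then vU2 S n (k + (i + 1)) else 0 := fun k => by
    by_cases hk : (k : ℕ) + 1 < n
    · exact pow_vU2 S hn' hk _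
    · have h4 : (k : ℕ) = n - 1 := by have := k.2; omega
      rw [h4, pow_succ, Module.End.mul_apply, rU2_last S hn (by omega), ← map_pow, rU2_top,
        h2 _ (by omega), if_neg]
      · rfl
      · intro h
        have := h 0 (by omega)
        rw [add_zero, hn] at this
        exact absurd this (by simp)
  conv_lhs => rw [dec_U2 S u]
  rw [map_add, map_add, h1, ← map_pow, rU2_top, h2 _ (by omega), h2 _ (by omega), map_sum, map_pow]
  simp only [map_smul, h3]
  simp [Prod.mk_zero_zero]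

section

variable {m J α : ℕ}

lemma slm_last2 : slm m J (2 * m + J + 2 - 2) = true := by simp [slm]

lemma pow_zero2 (hJ : J % 2 = 1) (hα : S.ρ (ι F false ^ α) = 0) (hm : α + 2 ≤ m) {j : ℕ}
    (hj : m + 1 ≤ j) : rU2 S (2 * m + J + 2) (slm m J) (ι F false) ^ j = 0 := by
  refine LinearMap.ext fun u => ?_
  rw [pow_apply2 S slm_last slm_last2 (by omega) (by simp [slm]) hα (by omega)]
  refine Finset.sum_eq_zero fun i _ => ?_
  rw [if_neg, smul_zero]
  rw [run_iff hJ (by omega)]
  omega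

lemma pow_top2 (hJ : J % 2 = 1) (hα : S.ρ (ι F false ^ α) = 0) (hm : α + 2 ≤ m)
    (u : W × (Fin (2 * m + J + 2) → F) × W) :
    (rU2 S (2 * m + J + 2) (slm m J) (ι F false) ^ m) u =
      co _ (m + J) u.2.1 • vU2 S _ (2 * m + J) := by
  rw [pow_apply2 S slm_last slm_last2 (by omega) (by simp [slm]) hα (by omega),
    Finset.sum_eq_single ⟨m + J, by omega⟩, co_apply (by omega), if_pos]
  · congr 2; simp only; omega
  · rw [run_iff hJ (by omega)]; simp only; omega
  · intro i _ hi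
    have : (i : ℕ) ≠ m + J := fun h => hi (Fin.ext h)
    rw [if_neg, smul_zero]
    rw [run_iff hJ (by omega)]
    omega
  · simp

lemma pow_pred2 (hJ : J % 2 = 1) (hα : S.ρ (ι F false ^ α) = 0) (hm : α + 2 ≤ m) (hm3 : 3 ≤ m)
    (u : W × (Fin (2 * m + J + 2) → F) × W) :
    (rU2 S (2 * m + J + 2) (slm m J) (ι F false) ^ (m - 1)) u - co _ 1 u.2.1 • vU2 S _ m ∈
      Fl W _ (m + 1) := by
  rw [pow_apply2 S slm_last slm_last2 (by omega) (by simp [slm]) hα (by omega),
    ← Finset.add_sum_erase _ _ (Finset.mem_univ (⟨1, by omega⟩ : Fin (2 * m + J + 2))),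
    co_apply (by omega), if_pos, show ((⟨1, _⟩ : Fin (2 * m + J + 2)) : ℕ) + (m - 1) = m by
      simp only; omega, add_sub_cancel_left]
  · refine Submodule.sum_mem _ fun i hi => Submodule.smul_mem _ _ ?_
    have : (i : ℕ) ≠ 1 := fun h => Finset.ne_of_mem_erase hi (Fin.ext h)
    split_ifs with h
    · rw [run_iff hJ (by omega)] at h
      exact Fl_anti (by omega) (vU2_mem S _)
    · exact zero_mem _
  · rw [run_iff hJ (by omega)]; simp only; omega

lemma alt_word2 (w : List Bool) (hw : w.length ≤ J) :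
    rU2 S (2 * m + J + 2) (slm m J) (wd w) (vU2 S _ m) =
      alt F (wd w) (decide (w.length % 2 = 0)) true • vU2 S _ (m + w.length) := by
  induction w with
  | nil => simp
  | cons s w ih =>
    rw [List.length_cons] at hw ⊢
    have h1 : slm m J (m + w.length) = decide (w.length % 2 = 0) := by
      unfold slm
      rw [decide_eq_decide]
      omega
    have h2 : decide ((w.length + 1) % 2 = 0) = !decide (w.length % 2 = 0) := by
      rw [← decide_not, decide_eq_decide]
      omega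
    rw [wd_cons, map_mul, map_mul, Module.End.mul_apply, ih (by omega), map_smul,
      rU2_vU S _ (by omega), h1, h2, alt, FreeAlgebra.lift_ι_apply]
    generalize decide (w.length % 2 = 0) = c
    cases c <;> cases s <;> simp [Matrix.mul_apply, add_assoc]

lemma alt_co2 (hJ : J % 2 = 1) {y : T F} (hy : y ∈ Eqd F J) :
    co _ (m + J) (rU2 S (2 * m + J + 2) (slm m J) y (vU2 S _ m)).2.1 = alt F y false true := by
  refine LinearMap.eqOn_span' (f := co _ (m + J) ∘ₗ LinearMap.fst F _ _ ∘ₗ LinearMap.snd F _ _ ∘ₗ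
    LinearMap.applyₗ (vU2 S _ m) ∘ₗ (rU2 S (2 * m + J + 2) (slm m J)).toLinearMap)
    (g := Matrix.entryLinearMap F F false true ∘ₗ (alt F).toLinearMap) ?_ hy
  rintro _ ⟨w, hw : w.length = J, rfl⟩
  have h := alt_word2 S (m := m) w hw.le
  rw [hw, show decide (J % 2 = 0) = false by simp [hJ]] at h
  simp [h, co_apply (show m + J < 2 * m + J + 2 by omega), vU2_co]

end

lemma co_one2 (hn : 1 < n) (h0 : sl 0 = true) (u : W × (Fin n → F) × W) :
    co n 1 (rU2 S n sl (ι F false) u).2.1 = 0 := by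
  rw [co_apply hn, rU2_ι, edges_apply]
  simp only [Prod.snd_add, Prod.fst_add, Pi.add_apply, Prod.snd_sum, Prod.fst_sum,
    Finset.sum_apply, Bool.false_eq_true, if_false, Prod.smul_snd, Prod.smul_fst, Pi.smul_apply,
    vU2_co]
  rw [Finset.sum_eq_zero]
  · simp
  intro j _
  split_ifs with h
  · rw [vU2_co, if_neg, smul_zero]
    intro h1
    rw [show (j : ℕ) = 0 by simpa using h1, h0] at h
    exact absurd h (by simp)
  · simp

theorem tv2 (p : ℕ) [Fact p.Prime] [CharP F p] {α m k J : ℕ} (hα1 : 1 ≤ α) (hm : m = α + 2)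
    (hk : k = α + 4) (hJ : J = 6 * k + 5) (hp : 10 * α + 36 ≤ p)
    (hα : ∀ s, S.ρ (ι F s ^ α) = 0) (h1 : S.ρ (ev p (c1 k) - 1) = 0)
    (h2 : S.ρ (ev p (c2 k) - 1) = 0) :
    ∃ κ : F, κ ≠ 0 ∧ ∀ u, rU2 S (2 * m + J + 2) (slm m J) (ev p (hl k (2 * m - 1))) u =
      u + (κ * co _ 1 u.2.1) • vU2 S _ (2 * m + J) := by
  obtain ⟨g1, g2, y, hy, g3, g4⟩ := lead F p (k := k) (by omega)
  have hJ2 : J % 2 = 1 := by omega
  set n := 2 * m + J + 2 with hn
  set ρ := rU2 S n (slm m J) with hρ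
  have hs : ∀ s, ρ (ι F s) ^ p = 0 := fun s => by
    rw [← map_pow]
    exact unip2 S (Eqd_le_Ge 1 (ι_mem s)) (hα s) (by omega)
  let G : ℕ → Submodule F (W × (Fin n → F) × W) := fun q =>
    if q = 0 then ⊤ else if q < 2 * (2 * k + 1) + n then Fl W n (q - (2 * k + 1)) else ⊥
  have h0 : ∀ x, ρ x ∈ Sh G 0 := fun x q u hu => by
    simp only [G, add_zero] at hu ⊢
    split_ifs at hu ⊢
    · trivial
    · exact fl_Ge2 S (mem_Ge_zero x) hu
    · rw [(Submodule.mem_bot F).mp hu, map_zero]; exact zero_mem _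
  have hb : ∀ x ∈ Ge F (2 * k + 1), S.ρ x = 0 → ρ x ∈ Sh G (2 * k + 1) := fun x hx hx0 q u hu => by
    simp only [G] at hu ⊢
    rw [if_neg (by omega)]
    by_cases a1 : q = 0
    · rw [if_pos (by omega), a1, zero_add, Nat.sub_self]; exact rel_mem2 S hx0 u
    rw [if_neg a1] at hu
    by_cases a2 : q < 2 * (2 * k + 1) + n
    · rw [if_pos a2] at hu
      split_ifs with a3
      · exact Fl_anti (by omega) (fl_Ge2 S hx hu)
      · exact rel_zero2 S hx0 (by omega) hu
    · rw [if_neg a2] at hu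
      rw [(Submodule.mem_bot F).mp hu, map_zero]; exact zero_mem _
  have hinv := fun l => (map_ev_inv p (ρ : T F →+* Module.End F (W × (Fin n → F) × W)) hs l).1
  simp only [RingHom.coe_coe] at hinv
  have k1 := hb _ g1 h1
  have k2 := hb _ g2 h2
  rw [map_sub, map_one] at k1 k2
  have k3 := Sh_comm (hinv _) (hinv _) k1 k2 (h0 _) (h0 _)
  rw [← map_mul, ← map_mul, ← map_mul, ← ev_cm] at k3
  have k4 := Sh_comm (hinv _) (hinv _) k3 k2 (h0 _) (h0 _)
  rw [← map_mul, ← map_mul, ← map_mul, ← ev_cm, ← c3] at k4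
  have k5 := iter_comm p ρ hs h0 (fun φ hφ => LinearMap.ext fun u => by
    have := hφ 0 u (by simp [G])
    simp only [G] at this
    rwa [if_neg (by omega), if_neg (by omega)] at this) k4 (2 * m - 1)
  set γ := ρ (ev p (c3 k)) - 1 with hγ
  have hγ' : γ = ρ (ev p (c3 k) - 1 - y) + ρ y := by simp [hγ]
  have k6 : γ (vU2 S n (2 * m + J)) = 0 := by
    have := k4 (2 * k + 1 + (2 * m + J)) (vU2 S n (2 * m + J)) (by
      simp only [G]
      rw [if_neg (by omega), if_pos (by omega), Nat.add_sub_cancel_left]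
      exact vU2_mem S _)
    simp only [G] at this
    rwa [if_neg (by omega), if_neg (by omega)] at this
  have k7 : ∀ u ∈ Fl (F := F) W n (m + J + 1), co n (m + J) u.2.1 = 0 := fun u hu => by
    rw [co_apply (by omega)]
    exact hu.2 _ (by simp)
  have k8 : ∀ u, co n (m + J) (γ ((ρ (ι F false) ^ (m - 1)) u)).2.1 =
      co n 1 u.2.1 * (4 * ((-2) ^ k) ^ 3) := fun u => by
    have a1 := pow_pred2 S hJ2 (hα false) hm.ge (by omega) u
    have a2 := k7 _ (Fl_anti (by omega) (fl_Ge2 (sl := slm m J) S g3 (vU2_mem S m)))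
    have a3 := k7 _ (Fl_anti (by omega) (fl_Ge2 (sl := slm m J) S
      (add_mem (Ge_anti (Nat.le_succ _) g3) (Eqd_le_Ge _ hy)) a1))
    have a4 := alt_co2 S (m := m) hJ2 (hJ ▸ hy)
    rw [map_add, ← hρ, ← hγ', map_sub, map_smul] at a3
    simp only [Prod.snd_sub, Prod.fst_sub, map_sub, Prod.smul_snd, Prod.smul_fst, map_smul,
      sub_eq_zero] at a3
    rw [a3, hγ', ← g4, ← a4]
    simp only [LinearMap.add_apply, Prod.snd_add, Prod.fst_add, map_add]
    rw [a2, zero_add, smul_eq_mul]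
  have k9 : ∀ (j : ℕ) u, co n 1 (((1 + ρ (ι F false)) ^ j) u).2.1 = co n 1 u.2.1 := fun j u => by
    induction j with
    | zero => simp
    | succ j ih =>
      rw [pow_succ', Module.End.mul_apply, ← ih]
      simp [hρ, co_one2 S (n := n) (sl := slm m J) (by omega) (by simp [slm])]
  rw [ad_pow (by omega) (fun j hj => pow_zero2 S hJ2 (hα false) hm.ge hj)
    (LinearMap.ext fun u => by
      rw [Module.End.mul_apply, Module.End.mul_apply, pow_top2 S hJ2 (hα false) hm.ge, map_smul, k6]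
      simp)] at k5
  have h2' : (2 : F) ≠ 0 := fun h => by
    have := Nat.le_of_dvd two_pos ((CharP.cast_eq_zero_iff F p 2).mp (by exact_mod_cast h))
    omega
  refine ⟨(-1) ^ (m - 1) * ((2 * m - 1).choose m : F) * (4 * ((-2) ^ k) ^ 3), ?_, fun u => ?_⟩
  · refine mul_ne_zero (mul_ne_zero (pow_ne_zero _ (by simp)) fun h => ?_)
      (mul_ne_zero (by rw [show (4 : F) = 2 * 2 by norm_num]; exact mul_ne_zero h2' h2')
        (pow_ne_zero _ (pow_ne_zero _ (neg_ne_zero.mpr h2'))))
    have h3 := ((CharP.cast_eq_zero_iff F p _).mp h).trans (Dvd.intro _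
      ((mul_assoc _ _ _).symm.trans (Nat.choose_mul_factorial_mul_factorial
        (show m ≤ 2 * m - 1 by omega))))
    have := (Fact.out : p.Prime).dvd_factorial.mp h3
    omega
  · rw [k5, ← pow_mul]
    simp only [LinearMap.add_apply, Module.End.one_apply, Module.End.mul_apply,
      LinearMap.smul_apply]
    rw [pow_top2 S hJ2 (hα false) hm.ge, k8, k9, smul_smul]
    congr 2
    ring

end Pool.Agent.Lib.MP_9675a1_al.Alt
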